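import Pool.Agent.W805.ER.Stage

/-! the damping. -/

open MeasureTheory Complex Filter Topology Set
open scoped ENNReal Real

namespace Pool.Agent.W805.ER

noncomputable section

local instance msConstruct : MeasureSpace UnitAddCircle := ⟨AddCircle.haarAddCircle⟩
local instance pmConstruct : IsProbabilityMeasure (volume : Measure UnitAddCircle) :=
  inferInstanceAs (IsProbabilityMeasure AddCircle.haarAddCircle)

open Classical in
/-- relation between successive stages -/
def Rel (K r0 : ℝ) {n : ℕ} (s : St r0 n) (s' : St r0 (n + 1)) : Prop :=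
  s'.b ≤ s.b / 2 ∧
  (∀ x, s'.B x = max (s.B x) (if r0 / 2 ^ (n + 2) ≤ ‖x‖ then s'.b else 0)) ∧
  ∃ τ₁, 4 * (1 + K) / s.b ≤ τ₁ ∧ τ₁ * s'.b = 1 / 4 ∧
    (∀ τ, 4 * (1 + K) / s.b ≤ |τ| → |τ| ≤ τ₁ → Low s.B τ (1 / 2)) ∧
    ∃ σ, |σ| = τ₁ ∧ ∃ u g : L2, u ≠ 0 ∧ Mult e2 fsq u g ∧ ‖Pop s.B σ u g‖ ≤ ‖u‖

lemma Low.mono {β : UnitAddCircle → ℝ} {τ c c' : ℝ} (h : Low β τ c) (hc : c' ≤ c) :
    Low β τ c' := fun u g hug =>
  (mul_le_mul_of_nonneg_right hc (norm_nonneg _)).trans (h u g hug)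

open Classical in
/-- the first stage -/
def st0 (r0 : ℝ) : St r0 0 where
  B := fun x => if r0 / 2 ≤ ‖x‖ then 1 else 0
  b := 1
  bm := ⟨Measurable.ite (measurableSet_le measurable_const measurable_norm)
      measurable_const measurable_const, fun x => by split_ifs <;> norm_num⟩
  nn := fun x => by split_ifs <;> norm_num
  b0 := one_pos
  b1 := le_rfl
  out := fun x hx => by
    have : r0 / 2 ≤ ‖x‖ := by simpa using hx
    rw [if_pos this]
  inn := fun x _ => by split_ifs <;> norm_num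
  zero := fun x hx => by
    have : ¬ r0 / 2 ≤ ‖x‖ := by simpa using hx
    rw [if_neg this]

section T2
variable {K : ℝ} (hK1 : 1 ≤ K)
  (hK : ∀ (r τ : ℝ) (u g : L2), 0 < r → r ≤ 1 / 4 → Mult e2 fsq u g →
    qf volume (lift (core r)) u ≤
      K * (qf volume (lift (lay r)) u +
        r ^ 4 * qf volume (lift (core (2 * r))) (g - ((τ ^ 2 : ℝ) : ℂ) • u)))
  (hQ : TaskQM2) {r0 : ℝ} (hr0 : 0 < r0) (hr08 : r0 ≤ 1 / 8)
  (hsm : 2 * K * r0 ^ 4 * (4 * (1 + K)) ≤ 1 / 4)
include hK1 hK hQ hr0 hr08 hsm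

lemma exists_next {n : ℕ} (s : St r0 n) : ∃ s' : St r0 (n + 1), Rel K r0 s s' := by
  classical
  obtain ⟨τ₁, h1, h2, h3⟩ := first_failure hK1 hK hQ hr0 hr08 hsm s
  have hb := s.b0
  have hK0 : 0 ≤ K := by linarith
  have hT0 : 8 / s.b ≤ 4 * (1 + K) / s.b := by
    apply div_le_div_of_nonneg_right _ hb.le; linarith
  have hτ₁pos : 0 < τ₁ := lt_of_lt_of_le (by positivity) (hT0.trans h1)
  have hτb : 8 ≤ τ₁ * s.b := by
    have := hT0.trans h1
    rwa [div_le_iff₀ hb] at this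
  set b' : ℝ := 1 / (4 * τ₁) with hb'
  have hb'0 : 0 < b' := by positivity
  have hb'2 : b' ≤ s.b / 2 := by
    rw [hb', div_le_iff₀ (by positivity)]
    nlinarith
  have hb'1 : b' ≤ 1 := by have := s.b1; linarith
  have hrr : r0 / 2 ^ (n + 2) ≤ r0 / 2 ^ (n + 1) := by
    apply div_le_div_of_nonneg_left hr0.le (by positivity)
    exact pow_le_pow_right₀ (by norm_num) (by omega)
  refine ⟨{ B := fun x => max (s.B x) (if r0 / 2 ^ (n + 2) ≤ ‖x‖ then b' else 0), b := b',
            bm := ?_, nn := ?_, b0 := hb'0, b1 := hb'1, out := ?_, inn := ?_, zero := ?_ },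
          hb'2, fun x => rfl, τ₁, h1, ?_, h2, h3⟩
  · refine ⟨s.bm.meas.max (Measurable.ite (measurableSet_le measurable_const measurable_norm)
      measurable_const measurable_const), fun x => ?_⟩
    rw [abs_of_nonneg (le_max_of_le_left (s.nn x))]
    refine max_le ((le_abs_self _).trans (s.bm.bd x)) ?_
    split_ifs
    · exact hb'1
    · exact zero_le_one
  · exact fun x => le_max_of_le_left (s.nn x)
  · intro x hx
    have hx' : r0 / 2 ^ (n + 2) ≤ ‖x‖ := hx
    simp only [if_pos hx']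
    exact le_max_right _ _
  · intro x hx
    refine max_le ?_ ?_
    · rw [s.zero x hx]; exact hb'0.le
    · split_ifs
      · exact le_rfl
      · exact hb'0.le
  · intro x hx
    have hx' : ‖x‖ < r0 / 2 ^ (n + 2) := hx
    simp only [if_neg (not_le.2 hx'), s.zero x (lt_of_lt_of_le hx' hrr), max_self]
  · show τ₁ * b' = 1 / 4
    rw [hb']; field_simp

end T2

/-- the damping: bounded, positive off the circle `x = 0`, with the resolvent lower bound at all
frequencies, and with bounded quasi-mode quality at arbitrarily high frequencies. -/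
theorem construct (hT : TaskT1T2) (hQ : TaskQM2) :
    ∃ β : UnitAddCircle → ℝ, BM β 1 ∧ (∀ x, 0 ≤ β x) ∧ (∀ x, x ≠ 0 → 0 < β x) ∧
      (∀ s > 0, ∃ c > 0, ∀ τ : ℝ, s ≤ |τ| → Low β τ c) ∧
      (∀ T : ℝ, ∃ τ : ℝ, T ≤ |τ| ∧ ∃ u g : L2, u ≠ 0 ∧ Mult e2 fsq u g ∧
        ‖Pop β τ u g‖ ≤ 2 * ‖u‖) := by
  classical
  obtain ⟨K, hK1, hK⟩ := hT
  have hK0 : 0 ≤ K := by linarith
  obtain ⟨r0, hr0, hr08, hsm⟩ : ∃ r0 : ℝ, 0 < r0 ∧ r0 ≤ 1 / 8 ∧
      2 * K * r0 ^ 4 * (4 * (1 + K)) ≤ 1 / 4 := by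
    refine ⟨1 / (8 * (1 + K)), by positivity, ?_, ?_⟩
    · apply div_le_div_of_nonneg_left (by norm_num) (by norm_num); nlinarith
    · rw [div_pow, one_pow]
      have h1 : 2 * K * (1 / (8 * (1 + K)) ^ 4) * (4 * (1 + K)) =
          (8 * K * (1 + K)) / (8 * (1 + K)) ^ 4 := by ring
      rw [h1, div_le_iff₀ (by positivity)]
      have h2 : 1 ≤ (1 + K) ^ 2 := by nlinarith
      have h3 : (8 * (1 + K)) ^ 4 = 4096 * ((1 + K) ^ 2 * (1 + K) ^ 2) := by ring
      rw [h3]
      nlinarith [mul_le_mul_of_nonneg_left h2 (sq_nonneg (1 + K))]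
  have hnext : ∀ (n : ℕ) (s : St r0 n), ∃ s' : St r0 (n + 1), Rel K r0 s s' := fun n s =>
    exists_next hK1 hK hQ hr0 hr08 hsm s
  let f : (n : ℕ) → St r0 n := fun n =>
    Nat.rec (motive := fun n => St r0 n) (st0 r0) (fun n s => (hnext n s).choose) n
  have hrel : ∀ n, Rel K r0 (f n) (f (n + 1)) := fun n => (hnext n (f n)).choose_spec
  clear_value f
  clear hnext
  have hbs : ∀ n, (f (n + 1)).b ≤ (f n).b / 2 := fun n => (hrel n).1
  have hBs : ∀ n x, (f (n + 1)).B x =
      max ((f n).B x) (if r0 / 2 ^ (n + 2) ≤ ‖x‖ then (f (n + 1)).b else 0) :=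
    fun n => (hrel n).2.1
  have hbanti : Antitone (fun n => (f n).b) := antitone_nat_of_succ_le fun n => by
    have := (f n).b0; have := hbs n; linarith
  have hbpow : ∀ n, (f n).b ≤ 1 / 2 ^ n := by
    intro n
    induction n with
    | zero => simpa using (f 0).b1
    | succ n ih =>
      refine (hbs n).trans ?_
      rw [pow_succ]
      calc (f n).b / 2 ≤ (1 / 2 ^ n) / 2 := by linarith
        _ = 1 / (2 ^ n * 2) := by field_simp
  have hBmono : ∀ x, Monotone (fun n => (f n).B x) := fun x =>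
    monotone_nat_of_le_succ fun n => by rw [hBs n x]; exact le_max_left _ _
  have hB1 : ∀ n x, (f n).B x ≤ 1 := fun n x => (le_abs_self _).trans ((f n).bm.bd x)
  have hBdd : ∀ x, BddAbove (range fun n => (f n).B x) := fun x =>
    ⟨1, by rintro _ ⟨n, rfl⟩; exact hB1 n x⟩
  set β : UnitAddCircle → ℝ := fun x => ⨆ n, (f n).B x with hβ
  -- values away from the centre
  have P1 : ∀ n x, r0 / 2 ^ (n + 1) ≤ ‖x‖ → β x = (f n).B x := by
    intro n x hx
    refine le_antisymm (ciSup_le fun m => ?_) (le_ciSup (hBdd x) n)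
    rcases le_total m n with h | h
    · exact hBmono x h
    · have : ∀ k, (f (n + k)).B x = (f n).B x := by
        intro k
        induction k with
        | zero => rfl
        | succ k ih =>
          rw [← add_assoc, hBs (n + k) x, ih]
          apply max_eq_left
          split_ifs
          · exact (hbanti (by omega : n ≤ n + k + 1)).trans ((f n).out x hx)
          · exact (f n).nn x
      have h2 := this (m - n)
      rw [Nat.add_sub_cancel' h] at h2
      exact h2.le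
  have P2 : ∀ n x, ‖x‖ < r0 / 2 ^ (n + 1) → β x ≤ (f (n + 1)).b := by
    intro n x hx
    refine ciSup_le fun m => ?_
    rcases le_or_gt m n with h | h
    · refine (hBmono x h).trans ?_
      simp only [(f n).zero x hx]
      exact (f (n + 1)).b0.le
    · have : ∀ k, (f (n + 1 + k)).B x ≤ (f (n + 1)).b := by
        intro k
        induction k with
        | zero => exact (f (n + 1)).inn x hx
        | succ k ih =>
          rw [← add_assoc, hBs (n + 1 + k) x]
          refine max_le ih ?_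
          split_ifs
          · exact hbanti (by omega : n + 1 ≤ n + 1 + k + 1)
          · exact (f (n + 1)).b0.le
      have h2 := this (m - (n + 1))
      rw [Nat.add_sub_cancel' h] at h2
      exact h2
  have hβ0 : ∀ x, 0 ≤ β x := fun x => ((f 0).nn x).trans (le_ciSup (hBdd x) 0)
  have hβ1 : ∀ x, β x ≤ 1 := fun x => ciSup_le fun n => hB1 n x
  have hβbm : BM β 1 :=
    ⟨Measurable.iSup fun n => (f n).bm.meas, fun x => by
      rw [abs_of_nonneg (hβ0 x)]; exact hβ1 x⟩
  have hclose : ∀ n x, |β x - (f n).B x| ≤ (f (n + 1)).b := by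
    intro n x
    rcases le_or_gt (r0 / 2 ^ (n + 1)) ‖x‖ with h | h
    · rw [P1 n x h, sub_self, abs_zero]; exact (f (n + 1)).b0.le
    · rw [(f n).zero x h, sub_zero, abs_of_nonneg (hβ0 x)]; exact P2 n x h
  have hout : ∀ n x, r0 / 2 ^ (n + 1) ≤ ‖x‖ → (f n).b ≤ β x := fun n x h => by
    rw [P1 n x h]; exact (f n).out x h
  have hin : ∀ n x, ‖x‖ < 2 * (r0 / 2 ^ (n + 1)) → β x ≤ (f n).b := by
    intro n x h
    rw [rad_two] at h
    rcases le_or_gt (r0 / 2 ^ (n + 1)) ‖x‖ with h' | h'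
    · rw [P1 n x h']; exact (f n).inn x h
    · exact (P2 n x h').trans (hbanti (Nat.le_succ n))
  have hrad : ∀ n, 0 < r0 / 2 ^ (n + 1) := fun n => by positivity
  have hrad4 : ∀ n, r0 / 2 ^ (n + 1) ≤ 1 / 4 := fun n => by
    have : r0 / 2 ^ (n + 1) ≤ r0 := div_le_self hr0.le (one_le_pow₀ (by norm_num))
    linarith
  refine ⟨β, hβbm, hβ0, ?_, ?_, ?_⟩
  · intro x hx
    have hx0 : 0 < ‖x‖ := norm_pos_iff.2 hx
    obtain ⟨n, hn⟩ := exists_pow_lt_of_lt_one (show 0 < ‖x‖ / r0 by positivity)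
      (show (1 / 2 : ℝ) < 1 by norm_num)
    refine lt_of_lt_of_le (f n).b0 (hout n x ?_)
    rw [one_div, inv_pow, lt_div_iff₀ hr0] at hn
    have : r0 / 2 ^ (n + 1) ≤ r0 / 2 ^ n := by
      apply div_le_div_of_nonneg_left hr0.le (by positivity)
      exact pow_le_pow_right₀ (by norm_num) (by omega)
    refine this.trans ?_
    rw [div_eq_inv_mul]
    exact hn.le
  · intro s hs
    set c1 : ℝ := 1 / (((1 + K) / (s * (f 0).b) + 2 * K * (4 * (1 + K))) + 2 * K + 1) with hc1
    set c2 : ℝ := 1 / (((1 + K) / (1 / 4) + 2 * K * (4 * (1 + K))) + 2 * K + 1) with hc2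
    have hb00 := (f 0).b0
    have hc1p : 0 < c1 := by positivity
    have hc2p : 0 < c2 := by positivity
    refine ⟨min c1 (min (1 / 4) c2), lt_min hc1p (lt_min (by norm_num) hc2p), ?_⟩
    intro τ hτ
    have hex : ∃ n, |τ| ≤ 4 * (1 + K) / (f n).b := by
      obtain ⟨n, hn⟩ := pow_unbounded_of_one_lt |τ| (show (1 : ℝ) < 2 by norm_num)
      refine ⟨n, ?_⟩
      rw [le_div_iff₀ (f n).b0]
      have h1 := hbpow n
      have h2 : (f n).b * 2 ^ n ≤ 1 := by
        rw [le_div_iff₀ (by positivity)] at h1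
        exact h1
      have h3 : |τ| * (f n).b ≤ 2 ^ n * (f n).b :=
        mul_le_mul_of_nonneg_right hn.le (f n).b0.le
      nlinarith
    obtain ⟨n, hn, hmin⟩ : ∃ n, |τ| ≤ 4 * (1 + K) / (f n).b ∧
        ∀ m < n, ¬ |τ| ≤ 4 * (1 + K) / (f m).b :=
      ⟨Nat.find hex, Nat.find_spec hex, fun m hm => Nat.find_min hex hm⟩
    cases n with
    | zero =>
      refine (low_range hK1 hK (σ := s * (f 0).b) (S := 4 * (1 + K)) (hrad 0) (hrad4 0) (f 0).b0
        hβbm hβ0 (hout 0) (hin 0) (by positivity) ?_ ?_).mono (min_le_left _ _)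
      · exact mul_le_mul_of_nonneg_right hτ (f 0).b0.le
      · rwa [le_div_iff₀ (f 0).b0] at hn
    | succ m =>
      have hm := hmin m (Nat.lt_succ_self m)
      push Not at hm
      obtain ⟨_, _, τ₁, h1, h2, h3, _⟩ := hrel m
      rcases le_or_gt |τ| τ₁ with h | h
      · refine Low.mono ?_ ((min_le_right _ _).trans (min_le_left _ _))
        intro u g hug
        have h5 := h3 τ hm.le h u g hug
        have h6 := Pop_sub_beta hβbm (f m).bm (hclose m) τ u g
        have h7 : |τ| * ((f (m + 1)).b * ‖u‖) ≤ 1 / 4 * ‖u‖ := by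
          have : |τ| * (f (m + 1)).b ≤ τ₁ * (f (m + 1)).b :=
            mul_le_mul_of_nonneg_right h (f (m + 1)).b0.le
          rw [h2] at this
          calc |τ| * ((f (m + 1)).b * ‖u‖) = (|τ| * (f (m + 1)).b) * ‖u‖ := by ring
            _ ≤ 1 / 4 * ‖u‖ := mul_le_mul_of_nonneg_right this (norm_nonneg _)
        have h8 : ‖Pop (f m).B τ u g‖ ≤ ‖Pop β τ u g‖ + ‖Pop β τ u g - Pop (f m).B τ u g‖ := by
          have := norm_sub_le (Pop β τ u g) (Pop β τ u g - Pop (f m).B τ u g)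
          rwa [sub_sub_cancel] at this
        linarith
      · refine (low_range hK1 hK (σ := 1 / 4) (S := 4 * (1 + K)) (hrad (m + 1)) (hrad4 (m + 1))
          (f (m + 1)).b0 hβbm hβ0 (hout (m + 1)) (hin (m + 1)) (by norm_num) ?_ ?_).mono
          ((min_le_right _ _).trans (min_le_right _ _))
        · rw [← h2]
          exact mul_le_mul_of_nonneg_right h.le (f (m + 1)).b0.le
        · rwa [le_div_iff₀ (f (m + 1)).b0] at hn
  · intro T
    obtain ⟨n, hn⟩ := pow_unbounded_of_one_lt T (show (1 : ℝ) < 2 by norm_num)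
    obtain ⟨_, _, τ₁, h1, h2, _, σ, hσ, u, g, hu, hug, hle⟩ := hrel n
    refine ⟨σ, ?_, u, g, hu, hug, ?_⟩
    · rw [hσ]
      refine le_trans ?_ h1
      rw [le_div_iff₀ (f n).b0]
      have h3 := hbpow n
      have h4 : (f n).b * 2 ^ n ≤ 1 := by
        rw [le_div_iff₀ (by positivity)] at h3
        exact h3
      have h5 : T * (f n).b ≤ 2 ^ n * (f n).b :=
        mul_le_mul_of_nonneg_right hn.le (f n).b0.le
      nlinarith
    · have h6 := Pop_sub_beta hβbm (f n).bm (hclose n) σ u g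
      have h7 : |σ| * ((f (n + 1)).b * ‖u‖) = 1 / 4 * ‖u‖ := by
        rw [hσ, ← mul_assoc, h2]
      have h8 : ‖Pop β σ u g‖ ≤ ‖Pop (f n).B σ u g‖ + ‖Pop β σ u g - Pop (f n).B σ u g‖ := by
        have := norm_add_le (Pop (f n).B σ u g) (Pop β σ u g - Pop (f n).B σ u g)
        rwa [add_sub_cancel] at this
      have := norm_nonneg u
      linarith

end

end Pool.Agent.W805.ER
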