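import Pool.Agent.W805.ER.QMb

/-! quasi-modes on the circle: conclusion. -/

open MeasureTheory Complex Filter Topology Set
open scoped ENNReal Real

namespace Pool.Agent.W805.ER

noncomputable section

local instance msQMc : MeasureSpace UnitAddCircle := ⟨AddCircle.haarAddCircle⟩
local instance pmQMc : IsProbabilityMeasure (volume : Measure UnitAddCircle) :=
  inferInstanceAs (IsProbabilityMeasure AddCircle.haarAddCircle)

/-- class of a piecewise function -/
def PL (r : ℝ) (fc fl : ℝ → ℂ) (hc : Continuous fc) (hl : Continuous fl) : L1 :=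
  (PF_memLp (r := r) hc hl).toLp (PF r fc fl)

lemma PL_ae (r : ℝ) {fc fl : ℝ → ℂ} (hc : Continuous fc) (hl : Continuous fl) :
    PL r fc fl hc hl =ᵐ[volume] PF r fc fl := MemLp.coeFn_toLp _

lemma PL_normSq {r : ℝ} (hr : 0 < r) (hr8 : r ≤ 1 / 8) {fc fl : ℝ → ℂ} (hc : Continuous fc)
    (hl : Continuous fl) :
    ‖PL r fc fl hc hl‖ ^ 2 =
      2 * ((∫ s in (0 : ℝ)..r, ‖fc s‖ ^ 2) + ∫ s in r..(2 * r), ‖fl s‖ ^ 2) := by
  rw [← PF_normSq hr hr8 hc hl, norm_sq_eq_integral]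
  refine integral_congr_ae ?_
  filter_upwards [PL_ae r hc hl] with x hx
  rw [hx]

lemma PL_repr (r : ℝ) {fc fl : ℝ → ℂ} (hc : Continuous fc) (hl : Continuous fl) (j : ℤ) :
    e1.repr (PL r fc fl hc hl) j = fourierCoeff (PF r fc fl) j := by
  have h1 : e1.repr (PL r fc fl hc hl) j = fourierCoeff (PL r fc fl hc hl) j :=
    fourierBasis_repr _ j
  rw [h1]
  exact congrFun (fourierCoeff_congr_ae (PL_ae r hc hl)) j

lemma X_bounds {t : ℝ} (h0 : 0 ≤ t) (h1 : t ≤ 1) : |X0 t| ≤ 1 ∧ |X1 t| ≤ 3 / 2 ∧ |X2 t| ≤ 6 := by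
  unfold X0 X1 X2
  refine ⟨abs_le.2 ⟨?_, ?_⟩, abs_le.2 ⟨?_, ?_⟩, abs_le.2 ⟨?_, ?_⟩⟩
  · nlinarith [mul_nonneg (sq_nonneg (1 - t)) (by linarith : 0 ≤ 1 + 2 * t)]
  · nlinarith [mul_nonneg (sq_nonneg t) (by linarith : 0 ≤ 1 - t), sq_nonneg t]
  · nlinarith [sq_nonneg (2 * t - 1)]
  · nlinarith
  · linarith
  · linarith

lemma norm_Ex (r p s : ℝ) : ‖Ex r p s‖ = Real.exp (-(p * (s - r))) := by
  unfold Ex om
  rw [Complex.norm_exp]
  congr 1
  simp

/-- the residual in the layer -/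
def Rl (r p s : ℝ) : ℂ :=
  ((1 / (4 * π ^ 2) : ℝ) : ℂ) * (al r p * (Ex r p s *
    (2 * om p * ((X1 ((s - r) / r) / r : ℝ) : ℂ) - ((X2 ((s - r) / r) / r ^ 2 : ℝ) : ℂ) -
      ((kap r ^ 2 : ℝ) : ℂ) * ((X0 ((s - r) / r) : ℝ) : ℂ))))

lemma kap_sq {r : ℝ} (hr : 0 < r) : (1 / (4 * r)) ^ 2 = kap r ^ 2 / (4 * π ^ 2) := by
  unfold kap
  have := Real.pi_ne_zero
  field_simp
  norm_num

lemma norm_Rl {r p s : ℝ} (hr : 0 < r) (hp : 1 ≤ p) (h1 : r ≤ s) (h2 : s ≤ 2 * r) :
    ‖Rl r p s‖ ≤ ((3 * kap r / r + kap r * (6 / r ^ 2 + kap r ^ 2)) / (4 * π ^ 2)) *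
      Real.exp (-(p * (s - r))) := by
  have hp0 : 0 < p := by linarith
  have hk := kap_pos hr
  have ht0 : 0 ≤ (s - r) / r := div_nonneg (by linarith) hr.le
  have ht1 : (s - r) / r ≤ 1 := (div_le_one hr).2 (by linarith)
  obtain ⟨b0, b1, b2⟩ := X_bounds ht0 ht1
  have hal : ‖al r p‖ ≤ kap r := (norm_al hr hp0).trans (div_le_self hk.le hp)
  have halom := norm_al_om hr hp0
  unfold Rl
  rw [norm_mul, norm_mul, norm_mul, norm_Ex, Complex.norm_real, Real.norm_eq_abs,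
    abs_of_pos (by positivity : (0 : ℝ) < 1 / (4 * π ^ 2))]
  set E := Real.exp (-(p * (s - r))) with hE
  have hE0 : 0 < E := Real.exp_pos _
  have hin : ‖2 * om p * ((X1 ((s - r) / r) / r : ℝ) : ℂ) - ((X2 ((s - r) / r) / r ^ 2 : ℝ) : ℂ) -
      ((kap r ^ 2 : ℝ) : ℂ) * ((X0 ((s - r) / r) : ℝ) : ℂ)‖ ≤
      3 * ‖om p‖ / r + 6 / r ^ 2 + kap r ^ 2 := by
    refine (norm_sub_le _ _).trans (add_le_add ((norm_sub_le _ _).trans (add_le_add ?_ ?_)) ?_)
    · rw [norm_mul, norm_mul, Complex.norm_real, Real.norm_eq_abs, abs_div, abs_of_pos hr]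
      have : ‖(2 : ℂ)‖ = 2 := by simp
      rw [this]
      have h3 : |X1 ((s - r) / r)| / r ≤ (3 / 2) / r := by gcongr
      calc 2 * ‖om p‖ * (|X1 ((s - r) / r)| / r) ≤ 2 * ‖om p‖ * ((3 / 2) / r) :=
            mul_le_mul_of_nonneg_left h3 (by positivity)
        _ = 3 * ‖om p‖ / r := by ring
    · rw [Complex.norm_real, Real.norm_eq_abs, abs_div, abs_of_pos (by positivity : 0 < r ^ 2)]
      gcongr
    · rw [norm_mul, Complex.norm_real, Complex.norm_real, Real.norm_eq_abs, Real.norm_eq_abs,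
        abs_of_pos (by positivity : 0 < kap r ^ 2)]
      calc kap r ^ 2 * |X0 ((s - r) / r)| ≤ kap r ^ 2 * 1 :=
            mul_le_mul_of_nonneg_left b0 (by positivity)
        _ = kap r ^ 2 := mul_one _
  have h4 : ‖al r p‖ * (3 * ‖om p‖ / r + 6 / r ^ 2 + kap r ^ 2) ≤
      3 * kap r / r + kap r * (6 / r ^ 2 + kap r ^ 2) := by
    have e : ‖al r p‖ * (3 * ‖om p‖ / r + 6 / r ^ 2 + kap r ^ 2) =
        3 * (‖al r p‖ * ‖om p‖) / r + ‖al r p‖ * (6 / r ^ 2 + kap r ^ 2) := by ring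
    rw [e, halom]
    have : ‖al r p‖ * (6 / r ^ 2 + kap r ^ 2) ≤ kap r * (6 / r ^ 2 + kap r ^ 2) :=
      mul_le_mul_of_nonneg_right hal (by positivity)
    linarith
  calc 1 / (4 * π ^ 2) * (‖al r p‖ * (E * _)) ≤
      1 / (4 * π ^ 2) * (‖al r p‖ * (E * (3 * ‖om p‖ / r + 6 / r ^ 2 + kap r ^ 2))) := by
        gcongr
    _ = (‖al r p‖ * (3 * ‖om p‖ / r + 6 / r ^ 2 + kap r ^ 2)) * E / (4 * π ^ 2) := by ring
    _ ≤ (3 * kap r / r + kap r * (6 / r ^ 2 + kap r ^ 2)) * E / (4 * π ^ 2) := by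
        gcongr
    _ = _ := by ring

lemma exp_int {r p : ℝ} (hp : 0 < p) :
    ∫ s in r..(2 * r), Real.exp (-(2 * p * (s - r))) ≤ 1 / (2 * p) := by
  have hF : ∀ s : ℝ, HasDerivAt (fun s : ℝ => -(1 / (2 * p)) * Real.exp (-(2 * p * (s - r))))
      (Real.exp (-(2 * p * (s - r)))) s := by
    intro s
    have h1 : HasDerivAt (fun s : ℝ => -(2 * p * (s - r))) (-(2 * p)) s := by
      have := (((hasDerivAt_id s).sub_const r).const_mul (2 * p)).neg
      exact this.congr_deriv (by ring)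
    refine HasDerivAt.congr_deriv (h1.exp.const_mul (-(1 / (2 * p)))) ?_
    field_simp
  rw [intervalIntegral.integral_eq_sub_of_hasDerivAt (fun s _ => hF s)
    (Continuous.intervalIntegrable (by fun_prop) _ _)]
  simp only [sub_self, mul_zero, neg_zero, Real.exp_zero, mul_one]
  have := Real.exp_pos (-(2 * p * (2 * r - r)))
  have h2 : 0 < 1 / (2 * p) := by positivity
  nlinarith

theorem qm1 : TaskQM1 := by
  intro r β₀ β hr hr8 hβ₀ hβm hβ0 hβ1 hcore hlay ε hε
  have hpi := Real.pi_pos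
  have hk := kap_pos hr
  set A : ℝ := (1 / (4 * r)) ^ 2 * kap r with hA
  set M : ℝ := (3 * kap r / r + kap r * (6 / r ^ 2 + kap r ^ 2)) / (4 * π ^ 2) with hM
  have hA0 : 0 < A := by positivity
  have hM0 : 0 < M := by positivity
  set C : ℝ := 2 * (r * A ^ 2 + M ^ 2) with hC
  have hC0 : 0 < C := by positivity
  set P : ℝ := max 1 (max (5 * kap r) (4 * C / (ε ^ 2 * r))) with hP
  have hP1 : 1 ≤ P := le_max_left _ _
  have hP2 : 5 * kap r ≤ P := (le_max_left _ _).trans (le_max_right _ _)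
  have hP3 : 4 * C / (ε ^ 2 * r) ≤ P := (le_max_right _ _).trans (le_max_right _ _)
  refine ⟨P ^ 2 / (2 * π ^ 2 * β₀), fun τ hτ => ?_⟩
  have hτ1 : P ^ 2 ≤ 2 * π ^ 2 * τ * β₀ := by
    have := hτ
    rw [ge_iff_le, div_le_iff₀ (by positivity)] at this
    linarith
  set p : ℝ := Real.sqrt (2 * π ^ 2 * τ * β₀) with hp
  have hpP : P ≤ p := Real.le_sqrt_of_sq_le hτ1
  have hp2 : p ^ 2 = 2 * π ^ 2 * τ * β₀ := Real.sq_sqrt (le_trans (by positivity) hτ1)
  have hp1 : 1 ≤ p := hP1.trans hpP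
  have hp0 : 0 < p := by linarith
  have hcWc := cont_Wc r p
  have hcWl := cont_Wl r p
  have hc2 : Continuous (fun s => (-(1 / (4 * π ^ 2) : ℝ) : ℂ) * Wc2 r s) :=
    continuous_const.mul (cont_Wc2 r)
  have hl2 : Continuous (fun s => (-(1 / (4 * π ^ 2) : ℝ) : ℂ) * Wl2 r p s) :=
    continuous_const.mul (cont_Wl2 r p)
  have hRc : Continuous (fun _ : ℝ => -((1 / (4 * r)) ^ 2 : ℝ) * al r p) := continuous_const
  have hRl : Continuous (Rl r p) := by
    unfold Rl X0 X1 X2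
    have := cont_Ex r p
    fun_prop
  set u : L1 := PL r (Wc r p) (Wl r p) hcWc hcWl with hu
  set g : L1 := PL r _ _ hc2 hl2 with hg
  have hbm : BM β 1 := ⟨hβm, fun x => by rw [abs_of_nonneg (hβ0 x)]; exact hβ1 x⟩
  have hal : ‖al r p‖ ≤ 1 / 5 := by
    refine (norm_al hr hp0).trans ?_
    rw [div_le_iff₀ hp0]
    linarith
  -- lower bound for ‖u‖
  have hulow : r / 4 ≤ ‖u‖ ^ 2 := by
    rw [hu, PL_normSq hr hr8]
    have h1 : 0 ≤ ∫ s in r..(2 * r), ‖Wl r p s‖ ^ 2 :=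
      intervalIntegral.integral_nonneg (by linarith) fun s _ => by positivity
    have hint : ∀ a b : ℝ, IntervalIntegrable (fun s => ‖Wc r p s‖ ^ 2) volume a b :=
      fun a b => Continuous.intervalIntegrable (by fun_prop) a b
    have h2 : ∫ s in (0 : ℝ)..r, ‖Wc r p s‖ ^ 2 = (∫ s in (0 : ℝ)..(r / 2), ‖Wc r p s‖ ^ 2) +
        ∫ s in (r / 2)..r, ‖Wc r p s‖ ^ 2 :=
      (intervalIntegral.integral_add_adjacent_intervals (hint _ _) (hint _ _)).symm
    have h3 : 0 ≤ ∫ s in (r / 2)..r, ‖Wc r p s‖ ^ 2 :=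
      intervalIntegral.integral_nonneg (by linarith) fun s _ => by positivity
    have h4 : ∫ s in (0 : ℝ)..(r / 2), (1 / 4 : ℝ) ≤ ∫ s in (0 : ℝ)..(r / 2), ‖Wc r p s‖ ^ 2 := by
      refine intervalIntegral.integral_mono_on (by linarith) (by simp) (hint _ _) ?_
      intro s hs
      have hks : kap r * s ≤ π / 4 := by
        have : kap r * s ≤ kap r * (r / 2) := mul_le_mul_of_nonneg_left hs.2 hk.le
        refine this.trans (le_of_eq ?_)
        unfold kap; field_simp; norm_num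
      have hcos : Real.cos (π / 4) ≤ Real.cos (kap r * s) :=
        Real.cos_le_cos_of_nonneg_of_le_pi (mul_nonneg hk.le hs.1) (by linarith) hks
      rw [Real.cos_pi_div_four] at hcos
      have hs2 : (1.4 : ℝ) ≤ Real.sqrt 2 := Real.le_sqrt_of_sq_le (by norm_num)
      have h5 : (1 / 2 : ℝ) ≤ ‖Wc r p s‖ := by
        unfold Wc
        have h6 : ‖((Real.cos (kap r * s) : ℝ) : ℂ)‖ ≤
            ‖((Real.cos (kap r * s) : ℝ) : ℂ) + al r p‖ + ‖al r p‖ := by
          have := norm_sub_le (((Real.cos (kap r * s) : ℝ) : ℂ) + al r p) (al r p)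
          rwa [add_sub_cancel_right] at this
        rw [Complex.norm_real, Real.norm_eq_abs, abs_of_nonneg (by linarith)] at h6
        norm_num at hs2
        linarith
      nlinarith
    rw [intervalIntegral.integral_const, smul_eq_mul, sub_zero] at h4
    linarith
  have hu0 : u ≠ 0 := by
    intro h
    rw [h, norm_zero] at hulow
    have : 0 < r / 4 := by positivity
    norm_num at hulow
    linarith
  refine ⟨u, g, hu0, ?_, ?_⟩
  · intro j
    rw [hg, hu, PL_repr, PL_repr]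
    exact quasi_fourier hr hr8 hp0 j
  · -- the residual
    have hres : g - ((1 / (4 * r)) ^ 2 : ℝ) • u + ((τ : ℂ) * I) • mulOp volume β u =
        PL r (fun _ => -((1 / (4 * r)) ^ 2 : ℝ) * al r p) (Rl r p) hRc hRl := by
      apply Lp.ext
      filter_upwards [PL_ae r hRc hRl, PL_ae r hcWc hcWl, PL_ae r hc2 hl2, mulOp_ae hbm u,
        Lp.coeFn_add (g - ((1 / (4 * r)) ^ 2 : ℝ) • u) (((τ : ℂ) * I) • mulOp volume β u),
        Lp.coeFn_sub g (((1 / (4 * r)) ^ 2 : ℝ) • u), Lp.coeFn_smul ((1 / (4 * r)) ^ 2 : ℝ) u,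
        Lp.coeFn_smul ((τ : ℂ) * I) (mulOp volume β u)] with x h1 h2 h3 h4 h5 h6 h7 h8
      rw [h1, h5, Pi.add_apply, h6, Pi.sub_apply, h7, h8, Pi.smul_apply, Pi.smul_apply, h4,
        show u x = PF r (Wc r p) (Wl r p) x from h2, show g x = _ from h3]
      unfold PF
      split_ifs with hx1 hx2
      · rw [hcore x hx1, kap_sq hr]
        unfold Wc Wc2
        simp only [Complex.real_smul, smul_eq_mul]
        push_cast
        have : (π : ℂ) ≠ 0 := by exact_mod_cast Real.pi_ne_zero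
        field_simp
        ring
      · rw [hlay x (not_lt.1 hx1) hx2, kap_sq hr]
        simp only [Complex.real_smul, smul_eq_mul]
        unfold Wl Wl2 Rl
        have hpp : (τ : ℂ) * β₀ = (p : ℂ) ^ 2 / (2 * π ^ 2) := by
          have : (π : ℂ) ≠ 0 := by exact_mod_cast Real.pi_ne_zero
          rw [eq_div_iff (mul_ne_zero two_ne_zero (pow_ne_zero 2 this))]
          exact_mod_cast (by rw [hp2]; ring : τ * β₀ * (2 * π ^ 2) = p ^ 2)
        have e : (τ : ℂ) * I * ((β₀ : ℂ) * (al r p * (Ex r p ‖x‖ *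
            ((X0 ((‖x‖ - r) / r) : ℝ) : ℂ)))) =
            (p : ℂ) ^ 2 / (2 * π ^ 2) * I * (al r p * (Ex r p ‖x‖ *
            ((X0 ((‖x‖ - r) / r) : ℝ) : ℂ))) := by
          rw [← hpp]; ring
        rw [e, om_sq]
        push_cast
        ring
      · simp
    rw [hres]
    have hRsq : ‖PL r (fun _ => -((1 / (4 * r)) ^ 2 : ℝ) * al r p) (Rl r p) hRc hRl‖ ^ 2 ≤
        C / p := by
      rw [PL_normSq hr hr8]
      have h1 : ∫ s in (0 : ℝ)..r, ‖-(((1 / (4 * r)) ^ 2 : ℝ) : ℂ) * al r p‖ ^ 2 ≤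
          r * A ^ 2 / p := by
        rw [intervalIntegral.integral_const, smul_eq_mul, sub_zero, norm_mul, norm_neg,
          Complex.norm_real, Real.norm_eq_abs, abs_of_pos (by positivity), mul_div_assoc]
        refine mul_le_mul_of_nonneg_left ?_ hr.le
        have h2 : (1 / (4 * r)) ^ 2 * ‖al r p‖ ≤ A / p := by
          calc (1 / (4 * r)) ^ 2 * ‖al r p‖ ≤ (1 / (4 * r)) ^ 2 * (kap r / p) :=
                mul_le_mul_of_nonneg_left (norm_al hr hp0) (by positivity)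
            _ = A / p := by rw [hA]; ring
        calc ((1 / (4 * r)) ^ 2 * ‖al r p‖) ^ 2 ≤ (A / p) ^ 2 :=
              pow_le_pow_left₀ (by positivity) h2 2
          _ = A ^ 2 / p ^ 2 := by rw [div_pow]
          _ ≤ A ^ 2 / p := by
              apply div_le_div_of_nonneg_left (by positivity) hp0
              nlinarith
      have h2 : ∫ s in r..(2 * r), ‖Rl r p s‖ ^ 2 ≤ M ^ 2 / p := by
        have h3 : ∫ s in r..(2 * r), ‖Rl r p s‖ ^ 2 ≤
            ∫ s in r..(2 * r), M ^ 2 * Real.exp (-(2 * p * (s - r))) := by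
          refine intervalIntegral.integral_mono_on (by linarith)
            (Continuous.intervalIntegrable (by fun_prop) _ _)
            (Continuous.intervalIntegrable (by fun_prop) _ _) ?_
          intro s hs
          have h4 := norm_Rl hr hp1 hs.1 hs.2
          calc ‖Rl r p s‖ ^ 2 ≤ (M * Real.exp (-(p * (s - r)))) ^ 2 :=
                pow_le_pow_left₀ (norm_nonneg _) h4 2
            _ = M ^ 2 * Real.exp (-(2 * p * (s - r))) := by
                rw [mul_pow, ← Real.exp_nat_mul]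
                congr 2
                push_cast; ring
        rw [intervalIntegral.integral_const_mul] at h3
        refine h3.trans ?_
        calc M ^ 2 * ∫ s in r..(2 * r), Real.exp (-(2 * p * (s - r))) ≤ M ^ 2 * (1 / (2 * p)) :=
              mul_le_mul_of_nonneg_left (exp_int hp0) (by positivity)
          _ ≤ M ^ 2 * (1 / p) := by
              refine mul_le_mul_of_nonneg_left ?_ (by positivity)
              apply div_le_div_of_nonneg_left (by norm_num) hp0
              linarith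
          _ = M ^ 2 / p := by ring
      have : C / p = 2 * (r * A ^ 2 / p + M ^ 2 / p) := by rw [hC]; ring
      rw [this]
      linarith
    have hCp : C / p ≤ ε ^ 2 * (r / 4) := by
      rw [div_le_iff₀ hp0]
      have h1 : 4 * C / (ε ^ 2 * r) ≤ p := hP3.trans hpP
      rw [div_le_iff₀ (by positivity)] at h1
      nlinarith
    have hfin : ‖PL r (fun _ => -((1 / (4 * r)) ^ 2 : ℝ) * al r p) (Rl r p) hRc hRl‖ ^ 2 ≤
        (ε * ‖u‖) ^ 2 := by
      rw [mul_pow]
      refine hRsq.trans (hCp.trans ?_)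
      exact mul_le_mul_of_nonneg_left hulow (by positivity)
    exact (pow_le_pow_iff_left₀ (norm_nonneg _) (by positivity) two_ne_zero).1 hfin

end

end Pool.Agent.W805.ER
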