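import Pool.Agent.W805.ER.Statement
import Pool.Agent.W805.ER.Construct
import Pool.Agent.W805.ER.QMc
import Pool.Agent.W424.ER1
import Pool.Agent.W424.ER2
import Pool.Agent.W424.ER4
import Pool.Agent.W424.ER6
import Pool.Agent.W741.ER3
import Pool.Agent.W741.ER5
import Pool.Agent.W741.ER7
import Pool.Agent.W741.ER9
import Pool.Agent.W63.ER.ER8

/-! assembly of the proof that a decay rate exactly `1/t` occurs. -/

open MeasureTheory Complex Filter Topology Set
open Pool.Agent.W805.ER (Mult Sol RE mulOp qf e2 fsq BM Pop Low TaskEnergy TaskDecay TaskExist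
  TaskLower TaskResolvent)

namespace Pool.Agent.W805.DampedTorus

noncomputable section

local instance msAsm : MeasureSpace UnitAddCircle := ⟨AddCircle.haarAddCircle⟩
local instance pmAsm : IsProbabilityMeasure (volume : Measure UnitAddCircle) :=
  inferInstanceAs (IsProbabilityMeasure AddCircle.haarAddCircle)

lemma hat_eq (u : L2) (k : Fin 2 → ℤ) : hat u k = e2.repr u k :=
  (UnitAddTorus.mFourierBasis_repr u k).symm

lemma isAbsGrad_iff (u g : L2) : IsAbsGrad u g ↔ Mult e2 freq u g := by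
  unfold IsAbsGrad Mult
  simp only [hat_eq]

lemma isNegLaplacian_iff (u g : L2) :
    IsNegLaplacian u g ↔ Mult e2 (fun k => freq k ^ 2) u g := by
  unfold IsNegLaplacian Mult
  simp only [hat_eq]

lemma freq_sq (k : Fin 2 → ℤ) : freq k ^ 2 = fsq k := by
  unfold freq fsq
  exact Real.sq_sqrt (by positivity)

lemma freq_nonneg (k : Fin 2 → ℤ) : 0 ≤ freq k := Real.sqrt_nonneg _

lemma freq_zero : freq 0 = 0 := by simp [freq]

lemma one_le_freq {k : Fin 2 → ℤ} (hk : k ≠ 0) : 1 ≤ freq k := by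
  unfold freq
  apply Real.le_sqrt_of_sq_le
  have h : k 0 ≠ 0 ∨ k 1 ≠ 0 := by
    by_contra hc
    push Not at hc
    apply hk
    ext i; fin_cases i
    · exact hc.1
    · exact hc.2
  have h1 : ∀ m : ℤ, m ≠ 0 → (1 : ℝ) ≤ (m : ℝ) ^ 2 := by
    intro m hm
    have : 1 ≤ m ^ 2 := by
      have := sq_pos_of_ne_zero hm (R := ℤ)
      omega
    exact_mod_cast this
  rcases h with h | h
  · have := h1 _ h; nlinarith [sq_nonneg ((k 1 : ℝ))]
  · have := h1 _ h; nlinarith [sq_nonneg ((k 0 : ℝ))]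

lemma hasSum_hat (u : L2) : HasSum (fun k => ‖hat u k‖ ^ 2) (‖u‖ ^ 2) := by
  rw [ER.norm_sq_eq_integral]
  exact UnitAddTorus.hasSum_sq_mFourierCoeff u

lemma hasSum_mult {m : (Fin 2 → ℤ) → ℝ} {u g : L2} (h : Mult e2 m u g) :
    HasSum (fun k => m k ^ 2 * ‖hat u k‖ ^ 2) (‖g‖ ^ 2) := by
  have h1 := hasSum_hat g
  have h2 : ∀ k, ‖hat g k‖ ^ 2 = m k ^ 2 * ‖hat u k‖ ^ 2 := by
    intro k
    rw [hat_eq, h k, norm_mul, mul_pow, Complex.norm_real, Real.norm_eq_abs, sq_abs, hat_eq]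
  simpa only [h2] using h1

lemma exists_mult {m : (Fin 2 → ℤ) → ℝ} {u : L2}
    (h : Summable fun k => m k ^ 2 * ‖hat u k‖ ^ 2) : ∃ g : L2, Mult e2 m u g := by
  have hmem : Memℓp (fun k => (m k : ℂ) * e2.repr u k) 2 := by
    rw [memℓp_gen_iff (by norm_num)]
    refine h.congr fun k => ?_
    simp only [ENNReal.toReal_ofNat, norm_mul, Complex.norm_real, Real.norm_eq_abs]
    rw [Real.mul_rpow (abs_nonneg _) (norm_nonneg _)]
    simp only [Real.rpow_ofNat, sq_abs, hat_eq]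
  refine ⟨e2.repr.symm ⟨_, hmem⟩, fun k => ?_⟩
  rw [LinearIsometryEquiv.apply_symm_apply]

lemma gradSq_eq {u a : L2} (h : Mult e2 freq u a) : gradSq u = ‖a‖ ^ 2 :=
  (hasSum_mult h).tsum_eq

lemma InH2.mult1 {u : L2} (h : InH2 u) : ∃ a : L2, Mult e2 freq u a := by
  refine exists_mult (Summable.of_nonneg_of_le (fun k => by positivity) (fun k => ?_) h)
  refine mul_le_mul_of_nonneg_right ?_ (by positivity)
  nlinarith [sq_nonneg (freq k), sq_nonneg (freq k ^ 2)]

lemma InH2.mult2 {u : L2} (h : InH2 u) : ∃ a : L2, Mult e2 (fun k => freq k ^ 2) u a := by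
  refine exists_mult (Summable.of_nonneg_of_le (fun k => by positivity) (fun k => ?_) h)
  refine mul_le_mul_of_nonneg_right ?_ (by positivity)
  nlinarith [sq_nonneg (freq k), sq_nonneg (freq k ^ 2)]

lemma InH1.mult1 {u : L2} (h : InH1 u) : ∃ a : L2, Mult e2 freq u a := by
  refine exists_mult (Summable.of_nonneg_of_le (fun k => by positivity) (fun k => ?_) h)
  refine mul_le_mul_of_nonneg_right ?_ (by positivity)
  linarith

lemma bm_of_damping {b : Torus → ℝ} (hb : IsDamping b) : ∃ M, BM b M := by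
  obtain ⟨M, hM⟩ := hb.bounded
  exact ⟨M, hb.measurable, fun x => by rw [abs_of_nonneg (hb.nonneg x)]; exact hM x⟩

lemma re_inner_nonneg {b : Torus → ℝ} {M : ℝ} (hb : BM b M) (h0 : ∀ x, 0 ≤ b x) (w : L2) :
    0 ≤ (inner ℂ w (mulOp volume b w)).re := by
  rw [ER.inner_mulOp hb]
  simpa using ER.qf_nonneg (μ := volume) h0 w

/-- from solutions in the sense of the statement to abstract solutions -/
lemma sol_of_isSolution {b : Torus → ℝ} {M : ℝ} (hb : BM b M) {u v : ℝ → L2}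
    (h : IsSolution b u v) : ∃ a a₁ w₁ : ℝ → L2, Sol e2 freq (mulOp volume b) a v a₁ w₁ ∧
      (∀ t, 0 ≤ t → Mult e2 freq (u t) (a t)) ∧
      (∀ t, 0 ≤ t → Mult e2 (fun k => freq k ^ 2) (u t) (-(w₁ t) - mulOp volume b (v t))) ∧
      (∀ t, 0 ≤ t → HasDerivWithinAt u (v t) (Ici 0) t) := by
  obtain ⟨Gu, Gv, Lu, bv, h1, h2, h3, h4, h5, h6, h7, h8, h9⟩ := h
  have hbv : ∀ t, 0 ≤ t → bv t = mulOp volume b (v t) := by
    intro t ht
    apply Lp.ext
    filter_upwards [h4 t ht, ER.mulOp_ae hb (v t)] with x hx hx'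
    rw [hx, hx']
  have hv : ContinuousOn v (Ici 0) := fun t ht => (h7 t ht).continuousWithinAt
  have hLu : ∀ t, 0 ≤ t → -(-(Lu t) - bv t) - mulOp volume b (v t) = Lu t := by
    intro t ht
    rw [hbv t ht]; abel
  refine ⟨Gu, Gv, fun t => -(Lu t) - bv t, ⟨h6, h7, h8, ?_, ?_, ?_⟩, ?_, ?_, h5⟩
  · refine (h9.neg.sub ((mulOp volume b).continuous.comp_continuousOn hv)).congr ?_
    intro t ht
    simp only [Function.comp_apply, hbv t ht, Pi.sub_apply, Pi.neg_apply]
  · intro t ht; exact (isAbsGrad_iff _ _).1 (h2 t ht)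
  · intro t ht
    rw [hLu t ht]
    intro k
    have e1 := (isNegLaplacian_iff _ _).1 (h3 t ht) k
    have e2' := (isAbsGrad_iff _ _).1 (h1 t ht) k
    rw [e1, e2']
    push_cast; ring
  · intro t ht; exact (isAbsGrad_iff _ _).1 (h1 t ht)
  · intro t ht
    rw [hLu t ht]
    exact (isNegLaplacian_iff _ _).1 (h3 t ht)

/-- from abstract solutions to solutions in the sense of the statement -/
lemma isSolution_of_sol {b : Torus → ℝ} {M : ℝ} (hb : BM b M) {a w a₁ w₁ : ℝ → L2}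
    (h : Sol e2 freq (mulOp volume b) a w a₁ w₁) {u0 : L2} (h0 : Mult e2 freq u0 (a 0)) :
    ∃ u : ℝ → L2, IsSolution b u w ∧ u 0 = u0 := by
  have hwc : ContinuousOn w (Ici 0) := fun t ht => (h.hw t ht).continuousWithinAt
  have hac : ContinuousOn a (Ici 0) := fun t ht => (h.ha t ht).continuousWithinAt
  have hW : Continuous (fun s : ℝ => w (max s 0)) :=
    hwc.comp_continuous (by fun_prop) (fun s => mem_Ici.2 (le_max_right _ _))
  set u : ℝ → L2 := fun t => u0 + ∫ s in (0 : ℝ)..t, w (max s 0) with hu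
  have hu' : ∀ t, HasDerivAt u (w (max t 0)) t := fun t =>
    (hW.integral_hasStrictDerivAt 0 t).hasDerivAt.const_add u0
  have hud : ∀ t, 0 ≤ t → HasDerivWithinAt u (w t) (Ici 0) t := by
    intro t ht
    have := (hu' t).hasDerivWithinAt (s := Ici 0)
    rwa [max_eq_left ht] at this
  have hu00 : u 0 = u0 := by simp [hu]
  have hgrad : ∀ t, 0 ≤ t → Mult e2 freq (u t) (a t) := by
    intro t ht k
    set L : L2 →L[ℝ] ℂ := (innerSL ℂ (e2 k)).restrictScalars ℝ with hL
    have hLr : ∀ v : L2, L v = e2.repr v k := by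
      intro v
      rw [e2.repr_apply_apply]
      rfl
    set φ : ℝ → ℂ := fun s => L (a s) - (freq k : ℂ) * L (u s) with hφ
    have hder : ∀ s, 0 ≤ s → HasDerivWithinAt φ 0 (Ici 0) s := by
      intro s hs
      have e1 : HasDerivWithinAt (fun s => L (a s)) (L (a₁ s)) (Ici 0) s :=
        L.hasFDerivAt.comp_hasDerivWithinAt s (h.ha s hs)
      have e2' : HasDerivWithinAt (fun s => L (u s)) (L (w s)) (Ici 0) s :=
        L.hasFDerivAt.comp_hasDerivWithinAt s (hud s hs)
      have e3 := e1.sub (e2'.const_mul (freq k : ℂ))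
      refine e3.congr_deriv ?_
      rw [hLr, hLr, h.ga s hs k, sub_self]
    have hconst := constant_of_has_deriv_right_zero (f := φ) (a := 0) (b := t)
      (fun s hs => (hder s hs.1).continuousWithinAt.mono Icc_subset_Ici_self)
      (fun s hs => (hder s hs.1).mono (Ici_subset_Ici.2 hs.1)) t ⟨ht, le_rfl⟩
    simp only [hφ] at hconst
    rw [hLr, hLr, hLr, hLr, hu00, h0 k, sub_self] at hconst
    exact sub_eq_zero.1 hconst
  refine ⟨u, ⟨a, a₁, fun t => -(w₁ t) - mulOp volume b (w t), fun t => mulOp volume b (w t),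
    ?_, ?_, ?_, ?_, hud, h.ha, ?_, h.ca, ?_⟩, hu00⟩
  · intro t ht; exact (isAbsGrad_iff _ _).2 (hgrad t ht)
  · intro t ht; exact (isAbsGrad_iff _ _).2 (h.ga t ht)
  · intro t ht
    rw [isNegLaplacian_iff]
    intro k
    rw [h.gw t ht k, hgrad t ht k]
    push_cast; ring
  · intro t _; exact ER.mulOp_ae hb (w t)
  · intro t ht
    refine (h.hw t ht).congr_deriv ?_
    show w₁ t = -(-(w₁ t) - mulOp volume b (w t)) - mulOp volume b (w t)
    rw [neg_sub, sub_neg_eq_add, add_sub_cancel_left]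
  · exact h.cw.neg.sub ((mulOp volume b).continuous.comp_continuousOn hwc)

/-- existence and uniqueness -/
theorem wellPosed {b : Torus → ℝ} (hd : IsDamping b) : WellPosed b := by
  obtain ⟨M, hb⟩ := bm_of_damping hd
  intro u₀ u₁ h2 h1
  obtain ⟨a0, ha0⟩ := h2.mult1
  obtain ⟨g0, hg0⟩ := h2.mult2
  obtain ⟨g1, hg1⟩ := h1.mult1
  have hg : Mult e2 freq a0 g0 := by
    intro k
    rw [hg0 k, ha0 k]; push_cast; ring
  obtain ⟨a, w, a₁, w₁, hsol, hsa, hsw⟩ := Pool.Agent.W424.ER4.main (Fin 2 → ℤ) L2 e2 freq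
    (mulOp volume b) a0 u₁ g0 g1 hg1 hg
  obtain ⟨u, hu, hu0⟩ := isSolution_of_sol hb hsol (u0 := u₀) (by rw [hsa]; exact ha0)
  refine ⟨u, w, hu, hu0, hsw, ?_⟩
  intro u' v' hu' h0' h1'
  obtain ⟨a', a₁', w₁', hs', hg', _, hd'⟩ := sol_of_isSolution hb hu'
  obtain ⟨a2, a₁2, w₁2, hs2, hg2, _, hd2⟩ := sol_of_isSolution hb hu
  -- the difference
  have hdiff : Sol e2 freq (mulOp volume b) (fun t => a' t - a2 t) (fun t => v' t - w t)
      (fun t => a₁' t - a₁2 t) (fun t => w₁' t - w₁2 t) := by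
    refine ⟨fun t ht => (hs'.ha t ht).sub (hs2.ha t ht), fun t ht => (hs'.hw t ht).sub
      (hs2.hw t ht), hs'.ca.sub hs2.ca, hs'.cw.sub hs2.cw, ?_, ?_⟩
    · intro t ht k
      have e1 := hs'.ga t ht k
      have e2' := hs2.ga t ht k
      simp only [map_sub, lp.coeFn_sub, Pi.sub_apply, e1, e2']
      ring
    · intro t ht k
      have e1 := hs'.gw t ht k
      have e2' := hs2.gw t ht k
      have e3 : -(w₁' t - w₁2 t) - mulOp volume b (v' t - w t) =
          (-(w₁' t) - mulOp volume b (v' t)) - (-(w₁2 t) - mulOp volume b (w t)) := by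
        rw [map_sub]; abel
      rw [e3]
      simp only [map_sub, lp.coeFn_sub, Pi.sub_apply] at e1 e2' ⊢
      rw [e1, e2']
      ring
  have henergy := (Pool.Agent.W424.ER2.main (Fin 2 → ℤ) L2 e2 freq (mulOp volume b)
    (re_inner_nonneg hb hd.nonneg) _ _ _ _ hdiff).1
  have ha00 : a' 0 = a2 0 := by
    apply e2.repr.injective
    ext k
    rw [hg' 0 le_rfl k, hg2 0 le_rfl k, h0', hu0]
  have hv : ∀ t, 0 ≤ t → v' t = w t := by
    intro t ht
    have h3 := henergy (mem_Ici.2 le_rfl) (mem_Ici.2 ht) ht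
    simp only [ha00, h1', hsw, sub_self, norm_zero] at h3
    have h4 : ‖v' t - w t‖ ^ 2 ≤ 0 := by nlinarith [sq_nonneg ‖a' t - a2 t‖]
    have h5 : ‖v' t - w t‖ = 0 := by nlinarith [norm_nonneg (v' t - w t)]
    exact sub_eq_zero.1 (norm_eq_zero.1 h5)
  intro t ht
  refine ⟨?_, hv t ht⟩
  have hconst := constant_of_has_deriv_right_zero (f := fun s => u' s - u s) (a := 0) (b := t)
    (fun s hs => (((hd' s hs.1).sub (hd2 s hs.1)).continuousWithinAt).mono Icc_subset_Ici_self)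
    (fun s hs => by
      have := ((hd' s hs.1).sub (hd2 s hs.1)).mono (Ici_subset_Ici.2 hs.1)
      rwa [hv s hs.1, sub_self] at this) t ⟨ht, le_rfl⟩
  simp only [h0', hu0, sub_self] at hconst
  exact sub_eq_zero.1 hconst

end

end Pool.Agent.W805.DampedTorus
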