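import Pool.Agent.W805.ER.Assemble

/-! the final theorem. -/

open MeasureTheory Complex Filter Topology Set
open Pool.Agent.W805.ER (Mult Sol RE mulOp qf e2 fsq BM Pop Low TaskEnergy TaskDecay TaskExist
  TaskLower TaskResolvent)

namespace Pool.Agent.W805.DampedTorus

noncomputable section

local instance msFin : MeasureSpace UnitAddCircle := ⟨AddCircle.haarAddCircle⟩
local instance pmFin : IsProbabilityMeasure (volume : Measure UnitAddCircle) :=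
  inferInstanceAs (IsProbabilityMeasure AddCircle.haarAddCircle)

lemma isDamping_of_low {β : UnitAddCircle → ℝ} (hβ : BM β 1) (h0 : ∀ x, 0 ≤ β x)
    (hlow : ∀ s > 0, ∃ c > 0, ∀ τ : ℝ, s ≤ |τ| → Low β τ c) : IsDamping (ER.lift β) := by
  refine ⟨hβ.lift.meas, ⟨1, fun x => (le_abs_self _).trans (hβ.lift.bd x)⟩, fun x => h0 (x 0), ?_⟩
  intro hz
  obtain ⟨c, hc, hl⟩ := hlow 1 one_pos
  set k : Fin 2 → ℤ := ![1, 0] with hk
  have hfk : fsq k = 1 := by simp [fsq, hk]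
  have hm : Mult e2 fsq (e2 k) (e2 k) := by
    intro j
    rw [HilbertBasis.repr_self, lp.single_apply]
    by_cases hj : j = k
    · subst hj; rw [hfk]; simp
    · rw [Pi.single_eq_of_ne hj]; simp
  have h1 := hl 1 (by simp) (e2 k) (e2 k) hm
  have hmul : mulOp volume (ER.lift β) (e2 k) = 0 := by
    apply Lp.ext
    filter_upwards [ER.mulOp_ae hβ.lift (e2 k), hz, Lp.coeFn_zero ℂ 2 (volume : Measure Torus)]
      with x h2 h3 h4
    rw [h2, h3, h4]; simp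
  unfold Pop at h1
  rw [hmul] at h1
  have h3 : ‖e2 k‖ = 1 := e2.orthonormal.1 k
  rw [h3] at h1
  simp at h1
  linarith

lemma qf_pos {b : Torus → ℝ} (hd : IsDamping b) :
    0 < (inner ℂ (e2 (0 : Fin 2 → ℤ)) (mulOp volume b (e2 0))).re := by
  obtain ⟨M, hb⟩ := bm_of_damping hd
  rw [ER.inner_mulOp hb, Complex.ofReal_re]
  rcases (ER.qf_nonneg (μ := volume) hd.nonneg (e2 (0 : Fin 2 → ℤ))).lt_or_eq with h | h
  · exact h
  · exfalso
    apply hd.nontrivial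
    have h1 := (integral_eq_zero_iff_of_nonneg (μ := (volume : Measure Torus))
      (fun x => mul_nonneg (hd.nonneg x) (by positivity)) (hb.int (e2 (0 : Fin 2 → ℤ)))).1 h.symm
    have h2 : (e2 (0 : Fin 2 → ℤ) : Torus → ℂ) =ᵐ[volume] fun _ => (1 : ℂ) := by
      have h3 : (e2 (0 : Fin 2 → ℤ) : L2) = UnitAddTorus.mFourierLp 2 0 := by
        show UnitAddTorus.mFourierBasis 0 = _
        rw [UnitAddTorus.coe_mFourierBasis]
      rw [h3]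
      filter_upwards [UnitAddTorus.coeFn_mFourierLp (d := Fin 2) 2 0] with x hx
      rw [hx, UnitAddTorus.mFourier_zero]; rfl
    filter_upwards [h1, h2] with x hx1 hx2
    simp only [Pi.zero_apply, hx2] at hx1
    simpa using hx1

/-- the resolvent bound -/
lemma resolvent {β : UnitAddCircle → ℝ} (hβ : BM β 1) (h0 : ∀ x, 0 ≤ β x)
    (hlow : ∀ s > 0, ∃ c > 0, ∀ τ : ℝ, s ≤ |τ| → Low β τ c) :
    ∃ C, RE e2 freq (mulOp volume (ER.lift β)) C := by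
  have hd := isDamping_of_low hβ h0 hlow
  refine Pool.Agent.W741.ER5.main (Fin 2 → ℤ) L2 e2 freq (mulOp volume (ER.lift β)) 0
    freq_nonneg freq_zero (fun k hk => one_le_freq hk) (ER.opNorm_mulOp_le zero_le_one hβ.lift)
    (fun w => ?_) (re_inner_nonneg hβ.lift hd.nonneg) (qf_pos hd) ?_
  · rw [ER.inner_mulOp hβ.lift]; exact Complex.ofReal_im _
  · intro s hs
    obtain ⟨c, hc, h⟩ := hlow s hs
    refine ⟨c, hc, fun τ hτ u g hug => ?_⟩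
    have hfun : (fun k => freq k ^ 2) = fsq := funext freq_sq
    rw [hfun] at hug
    exact h τ hτ u g hug

/-- decay at rate `1/t` -/
lemma stable {β : UnitAddCircle → ℝ} (hβ : BM β 1) (h0 : ∀ x, 0 ≤ β x)
    (hlow : ∀ s > 0, ∃ c > 0, ∀ τ : ℝ, s ≤ |τ| → Low β τ c) :
    StableAt (ER.lift β) (fun t => 1 / t) := by
  obtain ⟨C, hC⟩ := resolvent hβ h0 hlow
  obtain ⟨K, hK, hdec⟩ := Pool.Agent.W741.ER3.main Pool.Agent.W424.ER1.main
    Pool.Agent.W424.ER2.main (Fin 2 → ℤ) L2 e2 freq (mulOp volume (ER.lift β)) C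
    (re_inner_nonneg hβ.lift (fun x => h0 (x 0))) hC
  refine ⟨4 * K, by positivity, ?_⟩
  intro u v huv t ht
  obtain ⟨a, a₁, w₁, hsol, hg, hg2, hd⟩ := sol_of_isSolution hβ.lift huv
  have hz : ∀ t, 0 ≤ t → ∀ k, freq k = 0 → e2.repr (a t) k = 0 := by
    intro t ht k hk
    rw [hg t ht k, hk]; simp
  have h1 := hdec a v a₁ w₁ hsol hz t ht
  have hgt := gradSq_eq (hg t ht.le)
  unfold energy
  rw [hgt]
  -- initial data
  have s1 := hasSum_mult (hg2 0 le_rfl)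
  have s2 := hasSum_mult (hg 0 le_rfl)
  have s3 := hasSum_hat (u 0)
  have s4 := hasSum_mult (hsol.ga 0 le_rfl)
  have s5 := hasSum_hat (v 0)
  have hH1 : h1Sq (v 0) = ‖v 0‖ ^ 2 + ‖a₁ 0‖ ^ 2 := by
    have := s5.add s4
    unfold h1Sq
    rw [← this.tsum_eq]
    congr 1; ext k; ring
  have hH2 : h2Sq (u 0) = ‖u 0‖ ^ 2 + 2 * ‖a 0‖ ^ 2 +
      ‖-(w₁ 0) - mulOp volume (ER.lift β) (v 0)‖ ^ 2 := by
    have := (s3.add (s2.mul_left 2)).add s1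
    unfold h2Sq
    rw [← this.tsum_eq]
    congr 1; ext k; ring
  have hw1 : ‖w₁ 0‖ ^ 2 ≤ 2 * ‖-(w₁ 0) - mulOp volume (ER.lift β) (v 0)‖ ^ 2 +
      2 * ‖v 0‖ ^ 2 := by
    have h2 := ER.norm_mulOp_le (μ := volume) hβ.lift (v 0)
    have h3 : ‖w₁ 0‖ ≤ ‖-(w₁ 0) - mulOp volume (ER.lift β) (v 0)‖ +
        ‖mulOp volume (ER.lift β) (v 0)‖ := by
      have := norm_add_le (-(w₁ 0) - mulOp volume (ER.lift β) (v 0))
        (mulOp volume (ER.lift β) (v 0))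
      rwa [sub_add_cancel, norm_neg] at this
    have h4 : ‖w₁ 0‖ ≤ ‖-(w₁ 0) - mulOp volume (ER.lift β) (v 0)‖ + ‖v 0‖ := by linarith
    have h5 : ‖w₁ 0‖ ^ 2 ≤ (‖-(w₁ 0) - mulOp volume (ER.lift β) (v 0)‖ + ‖v 0‖) ^ 2 :=
      pow_le_pow_left₀ (norm_nonneg _) h4 2
    nlinarith [sq_nonneg (‖-(w₁ 0) - mulOp volume (ER.lift β) (v 0)‖ - ‖v 0‖)]
  have hsum : ‖a 0‖ ^ 2 + ‖v 0‖ ^ 2 + ‖a₁ 0‖ ^ 2 + ‖w₁ 0‖ ^ 2 ≤
      3 * (h2Sq (u 0) + h1Sq (v 0)) := by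
    rw [hH1, hH2]
    have := sq_nonneg ‖u 0‖
    have := sq_nonneg ‖a 0‖
    have := sq_nonneg ‖a₁ 0‖
    have := sq_nonneg ‖-(w₁ 0) - mulOp volume (ER.lift β) (v 0)‖
    linarith
  have hKt : 0 ≤ K / t ^ 2 := by positivity
  have h6 := mul_le_mul_of_nonneg_left hsum hKt
  have h7 : 0 ≤ K / t ^ 2 * (h2Sq (u 0) + h1Sq (v 0)) := by
    refine mul_nonneg hKt ?_
    rw [hH1, hH2]; positivity
  have h8 : 4 * K * (1 / t) ^ 2 * (h2Sq (u 0) + h1Sq (v 0)) =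
      4 * (K / t ^ 2 * (h2Sq (u 0) + h1Sq (v 0))) := by
    field_simp
  rw [h8]
  linarith

/-- no better rate -/
lemma not_stable {β : UnitAddCircle → ℝ} (hβ : BM β 1) (h0 : ∀ x, 0 ≤ β x)
    (hd : IsDamping (ER.lift β))
    (hbad : ∀ T : ℝ, ∃ τ : ℝ, T ≤ |τ| ∧ ∃ u g : L2, u ≠ 0 ∧ Mult e2 fsq u g ∧
        ‖Pop β τ u g‖ ≤ 2 * ‖u‖) (f : ℝ → ℝ)
    (hf : Tendsto (fun t => t * f t) atTop (𝓝 0)) : ¬ StableAt (ER.lift β) f := by
  rintro ⟨C, hC, hst⟩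
  -- choose a large time
  have hev : ∀ᶠ t in atTop, |t * f t| < 1 / (100 * (1 + C)) := by
    have := hf.abs
    rw [abs_zero] at this
    exact this.eventually_lt_const (by positivity)
  obtain ⟨T, hT⟩ := eventually_atTop.1 hev
  obtain ⟨τ, hτ, u, g, hu, hug, hle⟩ := hbad (max 4 (4 * T))
  have hτ4 : 4 ≤ |τ| := (le_max_left _ _).trans hτ
  have hτT : T ≤ |τ| / 4 := by
    have := (le_max_right _ _).trans hτ
    linarith
  have hupos : 0 < ‖u‖ := norm_pos_iff.2 hu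
  set t : ℝ := |τ| / 4 with ht
  have ht0 : 0 < t := by positivity
  have htf := hT t hτT
  -- the data
  have hug' : Mult e2 (fun k => freq k ^ 2) u g := by
    intro k; rw [hug k, ← freq_sq]
  have sg := hasSum_mult hug'
  have su := hasSum_hat u
  have hInH2 : InH2 u := by
    unfold InH2
    have h1 : Summable fun k => 2 * ‖hat u k‖ ^ 2 + 2 * ((freq k ^ 2) ^ 2 * ‖hat u k‖ ^ 2) :=
      (su.summable.mul_left 2).add (sg.summable.mul_left 2)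
    refine Summable.of_nonneg_of_le (fun k => by positivity) (fun k => ?_) h1
    have h2 : (1 + freq k ^ 2) ^ 2 ≤ 2 + 2 * (freq k ^ 2) ^ 2 := by
      nlinarith [sq_nonneg (1 - freq k ^ 2)]
    have h3 := mul_le_mul_of_nonneg_right h2 (sq_nonneg ‖hat u k‖)
    linarith
  obtain ⟨su', hsu'⟩ := hInH2.mult1
  set v0 : L2 := ((τ : ℂ) * I) • u with hv0
  have hv0m : Mult e2 freq v0 (((τ : ℂ) * I) • su') := by
    intro k
    simp only [hv0, map_smul, lp.coeFn_smul, Pi.smul_apply, smul_eq_mul]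
    rw [hsu' k]; ring
  have hgs : Mult e2 freq su' g := by
    intro k; rw [hug' k, hsu' k]; push_cast; ring
  obtain ⟨a, w, a₁, w₁, hsol, hsa, hsw⟩ := Pool.Agent.W424.ER4.main (Fin 2 → ℤ) L2 e2 freq
    (mulOp volume (ER.lift β)) su' v0 g _ hv0m hgs
  obtain ⟨U, hU, hU0⟩ := isSolution_of_sol hβ.lift hsol (u0 := u) (by rw [hsa]; exact hsu')
  have hE := hst U w hU t ht0
  have hlow := Pool.Agent.W424.ER6.main (Fin 2 → ℤ) L2 e2 freq (mulOp volume (ER.lift β))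
    (re_inner_nonneg hβ.lift (fun x => h0 (x 0))) a w a₁ w₁ hsol τ u su' g hsu' hug' hsa hsw t
    ht0.le
  -- energy of U at time t
  obtain ⟨a', a₁', w₁', hs', hg', _, _⟩ := sol_of_isSolution hβ.lift hU
  have haa : a' t = a t := by
    -- both are `|∇| U(t)`: use uniqueness of coordinates along the construction
    have h1 : ∀ s, 0 ≤ s → ‖(fun s => a' s - a s) s‖ ^ 2 + ‖(fun s : ℝ => w s - w s) s‖ ^ 2 ≤
        ‖(fun s => a' s - a s) 0‖ ^ 2 + ‖(fun s : ℝ => w s - w s) 0‖ ^ 2 := by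
      have hdiff : Sol e2 freq (mulOp volume (ER.lift β)) (fun t => a' t - a t)
          (fun t => w t - w t) (fun t => a₁' t - a₁ t) (fun t => w₁' t - w₁ t) := by
        refine ⟨fun t ht => (hs'.ha t ht).sub (hsol.ha t ht), fun t ht => (hs'.hw t ht).sub
          (hsol.hw t ht), hs'.ca.sub hsol.ca, hs'.cw.sub hsol.cw, ?_, ?_⟩
        · intro t ht k
          have e1 := hs'.ga t ht k
          have e2' := hsol.ga t ht k
          simp only [map_sub, lp.coeFn_sub, Pi.sub_apply, e1, e2']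
          ring
        · intro t ht k
          have e1 := hs'.gw t ht k
          have e2' := hsol.gw t ht k
          have e3 : -(w₁' t - w₁ t) - mulOp volume (ER.lift β) (w t - w t) =
              (-(w₁' t) - mulOp volume (ER.lift β) (w t)) -
              (-(w₁ t) - mulOp volume (ER.lift β) (w t)) := by
            rw [map_sub]; abel
          rw [e3]
          simp only [map_sub, lp.coeFn_sub, Pi.sub_apply] at e1 e2' ⊢
          rw [e1, e2']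
          ring
      have := (Pool.Agent.W424.ER2.main (Fin 2 → ℤ) L2 e2 freq (mulOp volume (ER.lift β))
        (re_inner_nonneg hβ.lift (fun x => h0 (x 0))) _ _ _ _ hdiff).1
      intro s hs
      exact this (mem_Ici.2 le_rfl) (mem_Ici.2 hs) hs
    have h2 : a' 0 = a 0 := by
      apply e2.repr.injective
      ext k
      rw [hg' 0 le_rfl k, hsa, hU0, hsu' k]
    have h3 := h1 t ht0.le
    simp only [h2, sub_self, norm_zero] at h3
    have h4 : ‖a' t - a t‖ ^ 2 ≤ 0 := by nlinarith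
    have h5 : ‖a' t - a t‖ = 0 := by nlinarith [norm_nonneg (a' t - a t)]
    exact sub_eq_zero.1 (norm_eq_zero.1 h5)
  have hgrad : gradSq (U t) = ‖a t‖ ^ 2 := by
    rw [gradSq_eq (hg' t ht0.le), haa]
  have hPop : ‖g - ((τ ^ 2 : ℝ) : ℂ) • u + ((τ : ℂ) * I) • mulOp volume (ER.lift β) u‖ ≤
      2 * ‖u‖ := hle
  have hhalf : |τ| * ‖u‖ / 2 ≤ Real.sqrt (‖a t‖ ^ 2 + ‖w t‖ ^ 2) := by
    refine le_trans ?_ hlow
    have : t * ‖g - ((τ ^ 2 : ℝ) : ℂ) • u + ((τ : ℂ) * I) • mulOp volume (ER.lift β) u‖ ≤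
        t * (2 * ‖u‖) := mul_le_mul_of_nonneg_left hPop ht0.le
    have e : t * (2 * ‖u‖) = |τ| * ‖u‖ / 2 := by rw [ht]; ring
    linarith
  have hEn : (|τ| * ‖u‖ / 2) ^ 2 ≤ ‖a t‖ ^ 2 + ‖w t‖ ^ 2 := by
    have h1 := pow_le_pow_left₀ (by positivity) hhalf 2
    rwa [Real.sq_sqrt (by positivity)] at h1
  have hτsq : |τ| ^ 2 = τ ^ 2 := sq_abs τ
  have hτne : τ ≠ 0 := by
    intro h; rw [h, abs_zero] at hτ4; linarith
  -- norms of the data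
  have hgn : ‖g‖ ≤ 2 * τ ^ 2 * ‖u‖ := by
    have e : g = (g - ((τ ^ 2 : ℝ) : ℂ) • u + ((τ : ℂ) * I) • mulOp volume (ER.lift β) u) +
        ((τ ^ 2 : ℝ) : ℂ) • u - ((τ : ℂ) * I) • mulOp volume (ER.lift β) u := by abel
    have h1 : ‖((τ ^ 2 : ℝ) : ℂ) • u‖ = τ ^ 2 * ‖u‖ := by
      rw [norm_smul, Complex.norm_real, Real.norm_eq_abs, abs_of_nonneg (sq_nonneg τ)]
    have h2 : ‖((τ : ℂ) * I) • mulOp volume (ER.lift β) u‖ ≤ |τ| * ‖u‖ := by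
      rw [norm_smul, norm_mul, Complex.norm_I, mul_one, Complex.norm_real, Real.norm_eq_abs]
      have := ER.norm_mulOp_le (μ := volume) hβ.lift u
      rw [one_mul] at this
      exact mul_le_mul_of_nonneg_left this (abs_nonneg _)
    have h3 : ‖g‖ ≤ 2 * ‖u‖ + τ ^ 2 * ‖u‖ + |τ| * ‖u‖ := by
      calc ‖g‖ = ‖(g - ((τ ^ 2 : ℝ) : ℂ) • u + ((τ : ℂ) * I) • mulOp volume (ER.lift β) u) +
        ((τ ^ 2 : ℝ) : ℂ) • u - ((τ : ℂ) * I) • mulOp volume (ER.lift β) u‖ := by rw [← e]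
        _ ≤ _ := norm_sub_le _ _
        _ ≤ _ := add_le_add (norm_add_le _ _) le_rfl
        _ ≤ _ := by rw [h1]; exact add_le_add (add_le_add hPop le_rfl) h2
    have h4 : 2 + |τ| ≤ τ ^ 2 := by rw [← hτsq]; nlinarith
    nlinarith
  have hH2 : h2Sq u ≤ 2 * ‖u‖ ^ 2 + 2 * ‖g‖ ^ 2 := by
    unfold h2Sq
    refine hasSum_le (fun k => ?_) hInH2.hasSum ((su.mul_left 2).add (sg.mul_left 2))
    have h2 : (1 + freq k ^ 2) ^ 2 ≤ 2 + 2 * (freq k ^ 2) ^ 2 := by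
      nlinarith [sq_nonneg (1 - freq k ^ 2)]
    have h3 := mul_le_mul_of_nonneg_right h2 (sq_nonneg ‖hat u k‖)
    linarith
  have hH1 : h1Sq v0 ≤ τ ^ 2 * (‖u‖ ^ 2 + τ ^ 2 * ‖u‖ ^ 2 + ‖g‖ ^ 2 / τ ^ 2) := by
    have hτ2 : 0 < τ ^ 2 := by rw [← hτsq]; positivity
    have hhv : ∀ k, ‖hat v0 k‖ ^ 2 = τ ^ 2 * ‖hat u k‖ ^ 2 := by
      intro k
      rw [hat_eq, hat_eq, hv0]
      simp only [map_smul, lp.coeFn_smul, Pi.smul_apply, smul_eq_mul, norm_mul, Complex.norm_I,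
        Complex.norm_real, Real.norm_eq_abs, mul_one, mul_pow, sq_abs]
    unfold h1Sq
    simp only [hhv]
    have hR := (((su.add (su.mul_left (τ ^ 2))).add (sg.mul_left (1 / τ ^ 2)))).mul_left (τ ^ 2)
    have hRr : τ ^ 2 * (‖u‖ ^ 2 + τ ^ 2 * ‖u‖ ^ 2 + 1 / τ ^ 2 * ‖g‖ ^ 2) =
        τ ^ 2 * (‖u‖ ^ 2 + τ ^ 2 * ‖u‖ ^ 2 + ‖g‖ ^ 2 / τ ^ 2) := by ring
    rw [hRr] at hR
    have hle2 : ∀ k, (1 + freq k ^ 2) * (τ ^ 2 * ‖hat u k‖ ^ 2) ≤
        τ ^ 2 * (‖hat u k‖ ^ 2 + τ ^ 2 * ‖hat u k‖ ^ 2 +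
          1 / τ ^ 2 * ((freq k ^ 2) ^ 2 * ‖hat u k‖ ^ 2)) := by
      intro k
      have h2 : freq k ^ 2 ≤ τ ^ 2 + 1 / τ ^ 2 * (freq k ^ 2) ^ 2 := by
        have h3 : freq k ^ 2 * τ ^ 2 ≤ (τ ^ 2 + 1 / τ ^ 2 * (freq k ^ 2) ^ 2) * τ ^ 2 := by
          have : (τ ^ 2 + 1 / τ ^ 2 * (freq k ^ 2) ^ 2) * τ ^ 2 =
              (τ ^ 2) ^ 2 + (freq k ^ 2) ^ 2 := by field_simp
          rw [this]
          nlinarith [sq_nonneg (freq k ^ 2 - τ ^ 2), sq_nonneg (freq k ^ 2 + τ ^ 2),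
            sq_nonneg (freq k ^ 2), sq_nonneg (τ ^ 2)]
        exact le_of_mul_le_mul_right h3 hτ2
      have h4 : 0 ≤ τ ^ 2 * ‖hat u k‖ ^ 2 := by positivity
      nlinarith [mul_le_mul_of_nonneg_right h2 h4]
    have hsumm : Summable fun k => (1 + freq k ^ 2) * (τ ^ 2 * ‖hat u k‖ ^ 2) :=
      Summable.of_nonneg_of_le (fun k => by positivity) hle2 hR.summable
    exact hasSum_le hle2 hsumm.hasSum hR
  -- conclusion
  rw [hU0, hsw] at hE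
  unfold energy at hE
  rw [hgrad] at hE
  have hτ2 : 16 ≤ τ ^ 2 := by rw [← hτsq]; nlinarith
  have hdata : h2Sq u + h1Sq v0 ≤ 16 * (τ ^ 2 * τ ^ 2) * ‖u‖ ^ 2 := by
    have hg2 : ‖g‖ ^ 2 ≤ 4 * (τ ^ 2 * τ ^ 2) * ‖u‖ ^ 2 := by
      calc ‖g‖ ^ 2 ≤ (2 * τ ^ 2 * ‖u‖) ^ 2 := pow_le_pow_left₀ (norm_nonneg _) hgn 2
        _ = 4 * (τ ^ 2 * τ ^ 2) * ‖u‖ ^ 2 := by ring
    have e : τ ^ 2 * (‖u‖ ^ 2 + τ ^ 2 * ‖u‖ ^ 2 + ‖g‖ ^ 2 / τ ^ 2) =
        τ ^ 2 * ‖u‖ ^ 2 + τ ^ 2 * τ ^ 2 * ‖u‖ ^ 2 + ‖g‖ ^ 2 := by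
      field_simp
    rw [e] at hH1
    have hu2 : 0 ≤ ‖u‖ ^ 2 := by positivity
    have h5 : 2 * ‖u‖ ^ 2 ≤ τ ^ 2 * τ ^ 2 * ‖u‖ ^ 2 := by
      have : (2 : ℝ) ≤ τ ^ 2 * τ ^ 2 := by nlinarith
      exact mul_le_mul_of_nonneg_right this hu2
    have h6 : τ ^ 2 * ‖u‖ ^ 2 ≤ τ ^ 2 * τ ^ 2 * ‖u‖ ^ 2 := by
      have : τ ^ 2 ≤ τ ^ 2 * τ ^ 2 := by nlinarith
      exact mul_le_mul_of_nonneg_right this hu2
    linarith
  have hCf : 0 ≤ C * f t ^ 2 := by positivity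
  have h9 : (|τ| * ‖u‖ / 2) ^ 2 / 2 ≤ C * f t ^ 2 * (16 * (τ ^ 2 * τ ^ 2) * ‖u‖ ^ 2) := by
    have := mul_le_mul_of_nonneg_left hdata hCf
    linarith
  have h10 : (|τ| * ‖u‖ / 2) ^ 2 / 2 = τ ^ 2 * ‖u‖ ^ 2 / 8 := by
    rw [div_pow, mul_pow, hτsq]; ring
  have h11 : C * f t ^ 2 * (16 * (τ ^ 2 * τ ^ 2) * ‖u‖ ^ 2) =
      256 * C * (t * f t) ^ 2 * (τ ^ 2 * ‖u‖ ^ 2) := by
    have : t ^ 2 = τ ^ 2 / 16 := by rw [ht, div_pow, hτsq]; ring
    rw [mul_pow, this]; ring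
  rw [h10, h11] at h9
  have hpos : 0 < τ ^ 2 * ‖u‖ ^ 2 := by positivity
  have h12 : 1 / 8 ≤ 256 * C * (t * f t) ^ 2 := by
    by_contra hc
    push Not at hc
    nlinarith
  have h13 : (t * f t) ^ 2 < (1 / (100 * (1 + C))) ^ 2 := by
    rw [← sq_abs]
    exact pow_lt_pow_left₀ htf (abs_nonneg _) two_ne_zero
  have h14 : 256 * C * (t * f t) ^ 2 ≤ 256 * C * (1 / (100 * (1 + C))) ^ 2 :=
    mul_le_mul_of_nonneg_left h13.le (by positivity)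
  have h15 : 256 * C * (1 / (100 * (1 + C))) ^ 2 < 1 / 8 := by
    rw [div_pow, one_pow, mul_one_div, div_lt_div_iff₀ (by positivity) (by norm_num)]
    nlinarith
  linarith

/-- **Main theorem.** -/
theorem exists_exact_rate :
    (∀ b : Torus → ℝ, IsDamping b → WellPosed b) ∧
    ∃ β : UnitAddCircle → ℝ, (∀ x, x ≠ 0 → 0 < β x) ∧ (∀ x, β x ≤ 1) ∧
      IsDamping (fun x => β (x 0)) ∧ DecayExactlyOneOverT (fun x => β (x 0)) := by
  refine ⟨fun b hb => wellPosed hb, ?_⟩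
  have hJ := Pool.Agent.W741.ER9.main
  have hT := ER.t1t2 (Pool.Agent.W63.ER8.main Pool.Agent.W741.ER7.main) hJ
  obtain ⟨β, hβ, h0, hpos, hlow, hbad⟩ := ER.construct hT (ER.qm2 ER.qm1 hJ)
  have hd := isDamping_of_low hβ h0 hlow
  exact ⟨β, hpos, fun x => (le_abs_self _).trans (hβ.bd x), hd, stable hβ h0 hlow,
    fun f hf => not_stable hβ h0 hd hbad f hf⟩

end

end Pool.Agent.W805.DampedTorus
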