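import Pool.Agent.W805.ER.Torus2D
import Pool.Agent.W805.ER.Final

/-! transfer of the main theorem to the (definitionally equal) definitions of `Torus2D`. -/

open MeasureTheory Filter Topology Set

namespace Pool.Agent.W805.DampedWave

lemma hat_rfl (u : L2) (k : Fin 2 → ℤ) : hat u k = DampedTorus.hat u k := rfl

lemma isAbsGrad_rfl (u g : L2) : IsAbsGrad u g ↔ DampedTorus.IsAbsGrad u g := Iff.rfl

lemma isNegLaplacian_rfl (u g : L2) : IsNegLaplacian u g ↔ DampedTorus.IsNegLaplacian u g :=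
  Iff.rfl

lemma hasDerivOn_rfl (w w' : ℝ → L2) : HasDerivOn w w' ↔
    ∀ t, 0 ≤ t → @HasDerivWithinAt ℝ _ DampedTorus.L2 _ _ _ _ w (w' t) (Ici 0) t := Iff.rfl

lemma isSolution_rfl (b : Torus → ℝ) (u v : ℝ → L2) :
    IsSolution b u v ↔ DampedTorus.IsSolution b u v := Iff.rfl

lemma stableAt_rfl (b : Torus → ℝ) (f : ℝ → ℝ) : StableAt b f ↔ DampedTorus.StableAt b f :=
  Iff.rfl

lemma wellPosed_rfl (b : Torus → ℝ) : WellPosed b ↔ DampedTorus.WellPosed b := Iff.rfl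

theorem exists_exact_rate :
    (∀ b : Torus → ℝ, IsDamping b → WellPosed b) ∧
    ∃ β : UnitAddCircle → ℝ, (∀ x, x ≠ 0 → 0 < β x) ∧ (∀ x, β x ≤ 1) ∧
      IsDamping (fun x => β (x 0)) ∧ DecayExactlyOneOverT (fun x => β (x 0)) := by
  obtain ⟨h1, β, h2, h3, h4, h5, h6⟩ := DampedTorus.exists_exact_rate
  refine ⟨fun b hb => ?_, β, h2, h3, ⟨h4.1, h4.2, h4.3, h4.4⟩, ?_, ?_⟩
  · exact (wellPosed_rfl b).2 (h1 b ⟨hb.1, hb.2, hb.3, hb.4⟩)
  · exact (stableAt_rfl _ _).2 h5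
  · intro f hf hs
    exact h6 f hf ((stableAt_rfl _ _).1 hs)

end Pool.Agent.W805.DampedWave
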