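import Mathlib

/-!
Definitions and task statements for MP_d893f8_an (damped wave equation on the 2-torus with decay
rate exactly `1/t`).
-/

open MeasureTheory Complex Filter Topology Set
open scoped ENNReal Real

namespace Pool.Agent.W805.ER

noncomputable section

/-- The circle `ℝ/ℤ` carries its normalised Haar measure (total mass one). -/
local instance : MeasureSpace UnitAddCircle := ⟨AddCircle.haarAddCircle⟩
local instance : IsProbabilityMeasure (volume : Measure UnitAddCircle) :=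
  inferInstanceAs (IsProbabilityMeasure AddCircle.haarAddCircle)

/-! ### multiplication operators on `L²` of any measure space -/

section Mul
variable {α : Type} [MeasurableSpace α] (μ : Measure α)

/-- multiplication by the bounded measurable function `b` (zero operator if `b` is not
in `L^∞`) -/
def mulOp (b : α → ℝ) : Lp ℂ 2 μ →L[ℂ] Lp ℂ 2 μ := by
  classical
  exact (ContinuousLinearMap.mul ℂ ℂ).holderL μ ∞ 2 2
    (if h : MemLp (fun x => (b x : ℂ)) ∞ μ then h.toLp else 0)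

/-- the quadratic form `∫ b |u|²` -/
def qf (b : α → ℝ) (u : Lp ℂ 2 μ) : ℝ := ∫ x, b x * ‖u x‖ ^ 2 ∂μ

end Mul

/-! ### abstract setting -/

section Abstract
variable {ι H : Type} [NormedAddCommGroup H] [InnerProductSpace ℂ H] [CompleteSpace H]

/-- `g` is the image of `u` under the (unbounded) diagonal operator with entries `m k` in the
Hilbert basis `e` -/
def Mult (e : HilbertBasis ι ℂ H) (m : ι → ℝ) (u g : H) : Prop :=
  ∀ k, e.repr g k = (m k : ℂ) * e.repr u k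

/-- classical solutions of the system `a' = S w`, `w' = - S a - D w`, `S = diag (d k)`;
`a₁ = a'`, `w₁ = w'`. -/
structure Sol (e : HilbertBasis ι ℂ H) (d : ι → ℝ) (D : H →L[ℂ] H)
    (a w a₁ w₁ : ℝ → H) : Prop where
  ha : ∀ t, 0 ≤ t → HasDerivWithinAt a (a₁ t) (Ici 0) t
  hw : ∀ t, 0 ≤ t → HasDerivWithinAt w (w₁ t) (Ici 0) t
  ca : ContinuousOn a₁ (Ici 0)
  cw : ContinuousOn w₁ (Ici 0)
  ga : ∀ t, 0 ≤ t → Mult e d (w t) (a₁ t)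
  gw : ∀ t, 0 ≤ t → Mult e d (a t) (-(w₁ t) - D (w t))

/-- resolvent bound `‖(a,w)‖ ≤ C ⟨η⟩ ‖(iη - A)(a,w)‖` for `A (a,w) = (S w, - S a - D w)` -/
def RE (e : HilbertBasis ι ℂ H) (d : ι → ℝ) (D : H →L[ℂ] H) (C : ℝ) : Prop :=
  ∀ (η : ℝ) (a w g h : H), Mult e d w h → Mult e d a g → (∀ k, d k = 0 → e.repr a k = 0) →
    ‖a‖ ^ 2 + ‖w‖ ^ 2 ≤ C * (1 + η ^ 2) *
      (‖((η : ℂ) * I) • a - h‖ ^ 2 + ‖((η : ℂ) * I) • w + g + D w‖ ^ 2)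

end Abstract

/-- (ER-1) Parseval for continuous Hilbert space valued functions on `[0,L]` -/
def TaskParseval : Prop :=
  ∀ (ι H : Type) [Countable ι] [NormedAddCommGroup H] [InnerProductSpace ℂ H] [CompleteSpace H]
    (_ : HilbertBasis ι ℂ H) (L : ℝ) (f : ℝ → H), 0 < L → ContinuousOn f (Icc 0 L) →
    HasSum (fun n : ℤ => ‖∫ t in (0 : ℝ)..L, cexp (-((2 * π * n / L : ℝ) * I) * t) • f t‖ ^ 2)
      (L * ∫ t in (0 : ℝ)..L, ‖f t‖ ^ 2)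

/-- (ER-2) the energy is nonincreasing, for the solution and for its time derivative -/
def TaskEnergy : Prop :=
  ∀ (ι H : Type) [NormedAddCommGroup H] [InnerProductSpace ℂ H] [CompleteSpace H]
    (e : HilbertBasis ι ℂ H) (d : ι → ℝ) (D : H →L[ℂ] H),
    (∀ w : H, 0 ≤ (inner ℂ w (D w)).re) →
    ∀ a w a₁ w₁ : ℝ → H, Sol e d D a w a₁ w₁ →
      AntitoneOn (fun t => ‖a t‖ ^ 2 + ‖w t‖ ^ 2) (Ici 0) ∧
      ∀ t, 0 ≤ t → ‖a₁ t‖ ^ 2 + ‖w₁ t‖ ^ 2 ≤ ‖a₁ 0‖ ^ 2 + ‖w₁ 0‖ ^ 2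

/-- (ER-3) resolvent bound implies decay (a direct Borichev-Tomilov argument for exponent 1) -/
def TaskDecay : Prop :=
  ∀ (ι H : Type) [Countable ι] [NormedAddCommGroup H] [InnerProductSpace ℂ H] [CompleteSpace H]
    (e : HilbertBasis ι ℂ H) (d : ι → ℝ) (D : H →L[ℂ] H) (C : ℝ),
    (∀ w : H, 0 ≤ (inner ℂ w (D w)).re) → RE e d D C →
    ∃ K : ℝ, 0 < K ∧ ∀ a w a₁ w₁ : ℝ → H, Sol e d D a w a₁ w₁ →
      (∀ t, 0 ≤ t → ∀ k, d k = 0 → e.repr (a t) k = 0) →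
      ∀ T, 0 < T → ‖a T‖ ^ 2 + ‖w T‖ ^ 2 ≤
        K / T ^ 2 * (‖a 0‖ ^ 2 + ‖w 0‖ ^ 2 + ‖a₁ 0‖ ^ 2 + ‖w₁ 0‖ ^ 2)

/-- (ER-4) existence of classical solutions -/
def TaskExist : Prop :=
  ∀ (ι H : Type) [NormedAddCommGroup H] [InnerProductSpace ℂ H] [CompleteSpace H]
    (e : HilbertBasis ι ℂ H) (d : ι → ℝ) (D : H →L[ℂ] H) (a0 w0 g h : H),
    Mult e d w0 h → Mult e d a0 g →
    ∃ a w a₁ w₁ : ℝ → H, Sol e d D a w a₁ w₁ ∧ a 0 = a0 ∧ w 0 = w0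

/-- (ER-5) from a lower bound of the stationary operator to the resolvent bound -/
def TaskResolvent : Prop :=
  ∀ (ι H : Type) [NormedAddCommGroup H] [InnerProductSpace ℂ H] [CompleteSpace H]
    (e : HilbertBasis ι ℂ H) (d : ι → ℝ) (D : H →L[ℂ] H) (κ : ι),
    (∀ k, 0 ≤ d k) → d κ = 0 → (∀ k, k ≠ κ → 1 ≤ d k) → ‖D‖ ≤ 1 →
    (∀ w : H, (inner ℂ w (D w)).im = 0) → (∀ w : H, 0 ≤ (inner ℂ w (D w)).re) →
    0 < (inner ℂ (e κ) (D (e κ))).re →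
    (∀ s > 0, ∃ c > 0, ∀ τ : ℝ, s ≤ |τ| → ∀ u g : H, Mult e (fun k => d k ^ 2) u g →
      c * ‖u‖ ≤ ‖g - ((τ ^ 2 : ℝ) : ℂ) • u + ((τ : ℂ) * I) • D u‖) →
    ∃ C, RE e d D C

/-- (ER-6) solutions starting at a quasi-mode stay large for a long time -/
def TaskLower : Prop :=
  ∀ (ι H : Type) [NormedAddCommGroup H] [InnerProductSpace ℂ H] [CompleteSpace H]
    (e : HilbertBasis ι ℂ H) (d : ι → ℝ) (D : H →L[ℂ] H),
    (∀ w : H, 0 ≤ (inner ℂ w (D w)).re) →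
    ∀ a w a₁ w₁ : ℝ → H, Sol e d D a w a₁ w₁ →
    ∀ (τ : ℝ) (u su g : H), Mult e d u su → Mult e (fun k => d k ^ 2) u g →
      a 0 = su → w 0 = ((τ : ℂ) * I) • u →
      ∀ t, 0 ≤ t → |τ| * ‖u‖ - t * ‖g - ((τ ^ 2 : ℝ) : ℂ) • u + ((τ : ℂ) * I) • D u‖ ≤
        Real.sqrt (‖a t‖ ^ 2 + ‖w t‖ ^ 2)

/-- (ER-7) one-dimensional inequality -/
def TaskT1 : Prop :=
  ∀ (r μ : ℝ) (u u' u'' : ℝ → ℂ), 0 < r → (∀ x, HasDerivAt u (u' x) x) →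
    (∀ x, HasDerivAt u' (u'' x) x) → Continuous u'' →
    ∫ x in (-r)..r, ‖u x‖ ^ 2 ≤ 2000 * ((∫ x in r..(2 * r), ‖u x‖ ^ 2) +
      (∫ x in (-(2 * r))..(-r), ‖u x‖ ^ 2) +
      r ^ 4 * ∫ x in (-(2 * r))..(2 * r), ‖u'' x + (μ : ℂ) * u x‖ ^ 2)

/-! ### circle and torus -/

abbrev L1 := Lp ℂ 2 (volume : Measure UnitAddCircle)
abbrev T2 := UnitAddTorus (Fin 2)
abbrev L2 := Lp ℂ 2 (volume : Measure T2)

/-- Fourier basis of `L²(circle)` -/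
def e1 : HilbertBasis ℤ ℂ L1 := fourierBasis
/-- Fourier basis of `L²(torus)` -/
def e2 : HilbertBasis (Fin 2 → ℤ) ℂ L2 := UnitAddTorus.mFourierBasis

/-- `|k|²` -/
def fsq (k : Fin 2 → ℤ) : ℝ := (k 0 : ℝ) ^ 2 + (k 1 : ℝ) ^ 2

/-- indicator of `‖x‖ < r` on the circle -/
def core (r : ℝ) (x : UnitAddCircle) : ℝ := by
  classical exact if ‖x‖ < r then 1 else 0
/-- indicator of `r ≤ ‖x‖ < 2r` on the circle -/
def lay (r : ℝ) (x : UnitAddCircle) : ℝ := by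
  classical exact if r ≤ ‖x‖ ∧ ‖x‖ < 2 * r then 1 else 0

/-- (ER-8) the inequality (ER-7) for trigonometric polynomials on the circle -/
def TaskT1C : Prop :=
  ∃ K : ℝ, 1 ≤ K ∧ ∀ (r μ : ℝ) (F : Finset ℤ) (c : ℤ → ℂ), 0 < r → r ≤ 1 / 4 →
    qf volume (core r) (∑ j ∈ F, c j • e1 j) ≤
      K * (qf volume (lay r) (∑ j ∈ F, c j • e1 j) +
        r ^ 4 * qf volume (core (2 * r)) (∑ j ∈ F, (((j : ℝ) ^ 2 - μ : ℝ) * c j : ℂ) • e1 j))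

/-- (ER-9) tensoring with `exp (2π i m y)` -/
def TaskJ : Prop :=
  ∃ J : ℤ → L1 →ₗ[ℂ] L2,
    (∀ m m' u v, inner ℂ (J m u) (J m' v) = if m = m' then inner ℂ u v else 0) ∧
    (∀ m u (k : Fin 2 → ℤ), e2.repr (J m u) k = if k 1 = m then e1.repr u (k 0) else 0) ∧
    (∀ m u (β : UnitAddCircle → ℝ) (M : ℝ), Measurable β → (∀ x, |β x| ≤ M) →
      mulOp volume (fun x : T2 => β (x 0)) (J m u) = J m (mulOp volume β u))

/-- (ER-10) quasi-modes on the circle: the operator `-(2π)⁻² ∂² + iτβ` has, for large `τ`, an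
approximate eigenvalue near `(1/(4r))²`, the Dirichlet eigenvalue of the core `‖x‖ < r`. -/
def TaskQM1 : Prop :=
  ∀ (r β₀ : ℝ) (β : UnitAddCircle → ℝ), 0 < r → r ≤ 1 / 8 → 0 < β₀ → Measurable β →
    (∀ x, 0 ≤ β x) → (∀ x, β x ≤ 1) → (∀ x, ‖x‖ < r → β x = 0) →
    (∀ x, r ≤ ‖x‖ → ‖x‖ < 2 * r → β x = β₀) →
    ∀ ε > 0, ∃ Λ : ℝ, ∀ τ ≥ Λ, ∃ u g : L1, u ≠ 0 ∧ Mult e1 (fun j => (j : ℝ) ^ 2) u g ∧
      ‖g - ((1 / (4 * r)) ^ 2 : ℝ) • u + ((τ : ℂ) * I) • mulOp volume β u‖ ≤ ε * ‖u‖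

end

end Pool.Agent.W805.ER
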