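import Pool.Agent.W805.ER.Defs

/-! multiplication operators and the quadratic forms `∫ b |u|²`. -/

open MeasureTheory Complex Filter Topology Set
open scoped ENNReal Real

namespace Pool.Agent.W805.ER

noncomputable section

variable {α : Type} [MeasurableSpace α] {μ : Measure α}

/-- bounded measurable -/
structure BM (b : α → ℝ) (M : ℝ) : Prop where
  meas : Measurable b
  bd : ∀ x, |b x| ≤ M

lemma BM.memLp {b : α → ℝ} {M : ℝ} (h : BM b M) : MemLp (fun x => (b x : ℂ)) ∞ μ := by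
  refine memLp_top_of_bound (C := M) ?_ ?_
  · exact (Complex.measurable_ofReal.comp h.meas).aestronglyMeasurable
  · refine Eventually.of_forall fun x => ?_
    simpa using h.bd x

lemma mulOp_ae {b : α → ℝ} {M : ℝ} (h : BM b M) (u : Lp ℂ 2 μ) :
    mulOp μ b u =ᵐ[μ] fun x => (b x : ℂ) * u x := by
  unfold mulOp
  rw [dif_pos h.memLp]
  have h1 := (ContinuousLinearMap.mul ℂ ℂ).coeFn_holder (r := 2) (h.memLp (μ := μ)).toLp u
  have h2 := (h.memLp (μ := μ)).coeFn_toLp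
  simp only [ContinuousLinearMap.holderL_apply_apply]
  filter_upwards [h1, h2] with x hx1 hx2
  rw [hx1, hx2]
  simp

lemma BM.int {b : α → ℝ} {M : ℝ} (h : BM b M) (u : Lp ℂ 2 μ) :
    Integrable (fun x => b x * ‖u x‖ ^ 2) μ := by
  have h1 : Integrable (fun x => ‖u x‖ ^ 2) μ := (Lp.memLp u).integrable_norm_pow (by norm_num)
  refine h1.bdd_mul (c := M) h.meas.aestronglyMeasurable (Eventually.of_forall fun x => ?_)
  simpa using h.bd x

lemma qf_mono {b b' : α → ℝ} {M M' : ℝ} (h : BM b M) (h' : BM b' M') (hle : ∀ x, b x ≤ b' x)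
    (u : Lp ℂ 2 μ) : qf μ b u ≤ qf μ b' u := by
  refine integral_mono (h.int u) (h'.int u) fun x => ?_
  exact mul_le_mul_of_nonneg_right (hle x) (by positivity)

lemma qf_nonneg {b : α → ℝ} (hb : ∀ x, 0 ≤ b x) (u : Lp ℂ 2 μ) : 0 ≤ qf μ b u :=
  integral_nonneg fun x => mul_nonneg (hb x) (by positivity)

lemma norm_sq_eq_integral (u : Lp ℂ 2 μ) : ‖u‖ ^ 2 = ∫ x, ‖u x‖ ^ 2 ∂μ := by
  have h := L2.inner_def (𝕜 := ℂ) u u
  have h2 : (inner ℂ u u : ℂ) = ((‖u‖ ^ 2 : ℝ) : ℂ) := by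
    rw [inner_self_eq_norm_sq_to_K]; norm_cast
  have h3 : ∀ x, (inner ℂ (u x) (u x) : ℂ) = ((‖u x‖ ^ 2 : ℝ) : ℂ) := by
    intro x; rw [inner_self_eq_norm_sq_to_K]; norm_cast
  rw [h2] at h
  simp_rw [h3] at h
  rw [integral_complex_ofReal] at h
  exact_mod_cast h

lemma qf_one (u : Lp ℂ 2 μ) : qf μ (fun _ => 1) u = ‖u‖ ^ 2 := by
  rw [norm_sq_eq_integral]; simp [qf]

lemma qf_add {b b' : α → ℝ} {M M' : ℝ} (h : BM b M) (h' : BM b' M') (u : Lp ℂ 2 μ) :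
    qf μ (fun x => b x + b' x) u = qf μ b u + qf μ b' u := by
  unfold qf
  rw [← integral_add (h.int u) (h'.int u)]
  congr 1; ext x; ring

lemma qf_const_mul (c : ℝ) (b : α → ℝ) (u : Lp ℂ 2 μ) :
    qf μ (fun x => c * b x) u = c * qf μ b u := by
  unfold qf
  rw [← integral_const_mul]
  congr 1; ext x; ring

lemma inner_mulOp {b : α → ℝ} {M : ℝ} (h : BM b M) (u : Lp ℂ 2 μ) :
    inner ℂ u (mulOp μ b u) = ((qf μ b u : ℝ) : ℂ) := by
  rw [L2.inner_def]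
  unfold qf
  rw [← integral_complex_ofReal]
  refine integral_congr_ae ?_
  filter_upwards [mulOp_ae h u] with x hx
  rw [hx]
  have : (inner ℂ (u x) ((b x : ℂ) * u x) : ℂ) = (b x : ℂ) * inner ℂ (u x) (u x) := by
    rw [← smul_eq_mul (b x : ℂ) (u x), inner_smul_right]
  rw [this, inner_self_eq_norm_sq_to_K]
  push_cast
  rfl

lemma norm_mulOp_sq {b : α → ℝ} {M : ℝ} (h : BM b M) (u : Lp ℂ 2 μ) :
    ‖mulOp μ b u‖ ^ 2 = qf μ (fun x => b x ^ 2) u := by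
  rw [norm_sq_eq_integral]
  refine integral_congr_ae ?_
  filter_upwards [mulOp_ae h u] with x hx
  rw [hx, norm_mul, mul_pow]
  simp

lemma norm_mulOp_sub_le {b b' : α → ℝ} {M M' c : ℝ} (h : BM b M) (h' : BM b' M')
    (hc : ∀ x, |b x - b' x| ≤ c) (u : Lp ℂ 2 μ) :
    ‖mulOp μ b u - mulOp μ b' u‖ ≤ c * ‖u‖ := by
  refine Lp.norm_le_mul_norm_of_ae_le_mul ?_
  filter_upwards [mulOp_ae h u, mulOp_ae h' u, Lp.coeFn_sub (mulOp μ b u) (mulOp μ b' u)]
    with x h1 h2 h3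
  rw [h3, Pi.sub_apply, h1, h2, ← sub_mul, norm_mul]
  refine mul_le_mul_of_nonneg_right ?_ (norm_nonneg _)
  rw [← Complex.ofReal_sub, Complex.norm_real]
  exact hc x

lemma norm_mulOp_le {b : α → ℝ} {M : ℝ} (h : BM b M) (u : Lp ℂ 2 μ) :
    ‖mulOp μ b u‖ ≤ M * ‖u‖ := by
  refine Lp.norm_le_mul_norm_of_ae_le_mul ?_
  filter_upwards [mulOp_ae h u] with x h1
  rw [h1, norm_mul]
  refine mul_le_mul_of_nonneg_right ?_ (norm_nonneg _)
  simpa using h.bd x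

lemma opNorm_mulOp_le {b : α → ℝ} {M : ℝ} (hM : 0 ≤ M) (h : BM b M) :
    ‖mulOp μ b‖ ≤ M :=
  ContinuousLinearMap.opNorm_le_bound _ hM fun u => norm_mulOp_le h u

lemma continuous_qf {b : α → ℝ} {M : ℝ} (h : BM b M) :
    Continuous (fun u : Lp ℂ 2 μ => qf μ b u) := by
  have : (fun u : Lp ℂ 2 μ => qf μ b u) = fun u => (inner ℂ u (mulOp μ b u) : ℂ).re := by
    ext u; rw [inner_mulOp h]; simp
  rw [this]
  exact Complex.continuous_re.comp (Continuous.inner continuous_id (mulOp μ b).continuous)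

lemma qf_sub_le {b : α → ℝ} {M : ℝ} (h : BM b M) (hb : ∀ x, 0 ≤ b x) (u v : Lp ℂ 2 μ) :
    qf μ b (u - v) ≤ 2 * qf μ b u + 2 * qf μ b v := by
  have h1 : qf μ b (u - v) ≤ ∫ x, (2 * (b x * ‖u x‖ ^ 2) + 2 * (b x * ‖v x‖ ^ 2)) ∂μ := by
    refine integral_mono_ae (h.int _) (((h.int u).const_mul 2).add ((h.int v).const_mul 2)) ?_
    filter_upwards [Lp.coeFn_sub u v] with x hx
    simp only [hx, Pi.sub_apply]
    have h3 : ‖u x - v x‖ ^ 2 ≤ 2 * ‖u x‖ ^ 2 + 2 * ‖v x‖ ^ 2 := by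
      have := norm_sub_le (u x) (v x)
      have h4 : ‖u x - v x‖ ^ 2 ≤ (‖u x‖ + ‖v x‖) ^ 2 := by
        exact pow_le_pow_left₀ (norm_nonneg _) this 2
      nlinarith [sq_nonneg (‖u x‖ - ‖v x‖)]
    have h5 := mul_le_mul_of_nonneg_left h3 (hb x)
    linarith
  refine h1.trans (le_of_eq ?_)
  rw [integral_add ((h.int u).const_mul 2) ((h.int v).const_mul 2), integral_const_mul,
    integral_const_mul]
  rfl

end

end Pool.Agent.W805.ER
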