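import Pool.Agent.W805.ER.Mul

/-! radial piecewise functions on the circle. -/

open MeasureTheory Complex Filter Topology Set
open scoped ENNReal Real

namespace Pool.Agent.W805.ER

noncomputable section

lemma norm_coe_circle {s : ℝ} (hs : |s| ≤ 1 / 2) : ‖((s : ℝ) : UnitAddCircle)‖ = |s| := by
  rw [AddCircle.norm_coe_eq_abs_iff (1 : ℝ) one_ne_zero]
  simpa using hs

lemma circle_norm_le (x : UnitAddCircle) : ‖x‖ ≤ 1 / 2 := by
  have := AddCircle.norm_le_half_period (1 : ℝ) (x := x) one_ne_zero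
  simpa using this

lemma int_congr_Ioo {E : Type} [NormedAddCommGroup E] [NormedSpace ℝ E] {f g : ℝ → E} {a b : ℝ}
    (hab : a ≤ b) (h : ∀ x ∈ Ioo a b, f x = g x) : ∫ x in a..b, f x = ∫ x in a..b, g x := by
  rw [intervalIntegral.integral_of_le hab, intervalIntegral.integral_of_le hab,
    integral_Ioc_eq_integral_Ioo, integral_Ioc_eq_integral_Ioo]
  exact setIntegral_congr_fun measurableSet_Ioo h

lemma circle_integral_eq {E : Type} [NormedAddCommGroup E] [NormedSpace ℝ E]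
    {r : ℝ} (hr : 0 < r) (hr8 : r ≤ 1 / 8) (ψ : UnitAddCircle → E)
    (hm : AEStronglyMeasurable (fun s : ℝ => ψ s) (volume : Measure ℝ)) (M : ℝ)
    (hM : ∀ x, ‖ψ x‖ ≤ M) (A B : ℝ → E)
    (hA : ∀ s ∈ Ioo 0 r, ψ (s : ℝ) + ψ ((-s : ℝ)) = A s)
    (hB : ∀ s ∈ Ioo r (2 * r), ψ (s : ℝ) + ψ ((-s : ℝ)) = B s)
    (h0 : ∀ s ∈ Ioo (2 * r) (1 / 2), ψ (s : ℝ) + ψ ((-s : ℝ)) = 0) :
    ∫ x, ψ x ∂AddCircle.haarAddCircle = (∫ s in (0 : ℝ)..r, A s) + ∫ s in r..(2 * r), B s := by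
  have hint : ∀ a b : ℝ, IntervalIntegrable (fun s : ℝ => ψ s) volume a b := by
    intro a b
    rw [intervalIntegrable_iff]
    refine Measure.integrableOn_of_bounded (M := M) ?_ hm ?_
    · rw [uIoc]; simp
    · exact Eventually.of_forall fun s => hM _
  have hint2 : ∀ a b : ℝ, IntervalIntegrable (fun s : ℝ => ψ ((-s : ℝ))) volume a b := by
    intro a b
    have := (IntervalIntegrable.iff_comp_neg (f := fun s : ℝ => ψ s) (a := -a) (b := -b)).1
      (hint (-a) (-b))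
    simpa using this
  have h1 : ∫ x, ψ x ∂AddCircle.haarAddCircle = ∫ s in (-(1 / 2) : ℝ)..(1 / 2), ψ s := by
    rw [AddCircle.integral_haarAddCircle, inv_one, one_smul,
      ← UnitAddCircle.intervalIntegral_preimage (-(1 / 2)) ψ]
    norm_num
  have h2 : ∫ s in (-(1 / 2) : ℝ)..(1 / 2), ψ s =
      ∫ s in (0 : ℝ)..(1 / 2), (ψ (s : ℝ) + ψ ((-s : ℝ))) := by
    rw [← intervalIntegral.integral_add_adjacent_intervals (hint _ 0) (hint 0 _),
      intervalIntegral.integral_add (hint _ _) (hint2 _ _)]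
    have h3 : ∫ s in (0 : ℝ)..(1 / 2), ψ ((-s : ℝ)) = ∫ s in (-(1 / 2) : ℝ)..0, ψ s := by
      have := intervalIntegral.integral_comp_neg (a := (0 : ℝ)) (b := 1 / 2)
        (fun s : ℝ => ψ (s : UnitAddCircle))
      simpa using this
    rw [h3, add_comm]
  have hint3 : ∀ a b : ℝ, IntervalIntegrable (fun s : ℝ => ψ (s : ℝ) + ψ ((-s : ℝ)))
      volume a b := fun a b => (hint a b).add (hint2 a b)
  rw [h1, h2, ← intervalIntegral.integral_add_adjacent_intervals (hint3 0 r) (hint3 r (1 / 2)),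
    ← intervalIntegral.integral_add_adjacent_intervals (hint3 r (2 * r)) (hint3 (2 * r) (1 / 2)),
    int_congr_Ioo hr.le hA, int_congr_Ioo (by linarith) hB, int_congr_Ioo (by linarith) h0]
  simp

open Classical in
/-- piecewise radial function -/
def PF (r : ℝ) (fc fl : ℝ → ℂ) (x : UnitAddCircle) : ℂ :=
  if ‖x‖ < r then fc ‖x‖ else if ‖x‖ < 2 * r then fl ‖x‖ else 0

lemma PF_meas {r : ℝ} {fc fl : ℝ → ℂ} (hc : Continuous fc) (hl : Continuous fl) :
    Measurable (PF r fc fl) := by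
  classical
  unfold PF
  exact Measurable.ite (measurableSet_lt measurable_norm measurable_const)
    (hc.measurable.comp measurable_norm)
    (Measurable.ite (measurableSet_lt measurable_norm measurable_const)
      (hl.measurable.comp measurable_norm) measurable_const)

lemma PF_bdd {r : ℝ} {fc fl : ℝ → ℂ} (hc : Continuous fc) (hl : Continuous fl) :
    ∃ M : ℝ, ∀ x, ‖PF r fc fl x‖ ≤ M := by
  obtain ⟨M1, h1⟩ := isCompact_Icc.exists_bound_of_continuousOn
    (s := Icc (0 : ℝ) (1 / 2)) hc.continuousOn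
  obtain ⟨M2, h2⟩ := isCompact_Icc.exists_bound_of_continuousOn
    (s := Icc (0 : ℝ) (1 / 2)) hl.continuousOn
  refine ⟨max M1 M2, fun x => ?_⟩
  have hx : ‖x‖ ∈ Icc (0 : ℝ) (1 / 2) := ⟨norm_nonneg _, circle_norm_le x⟩
  have h3 := (norm_nonneg _).trans (h1 _ hx)
  unfold PF
  split_ifs
  · exact (h1 _ hx).trans (le_max_left _ _)
  · exact (h2 _ hx).trans (le_max_right _ _)
  · rw [norm_zero]; exact h3.trans (le_max_left _ _)

lemma PF_memLp {r : ℝ} {fc fl : ℝ → ℂ} (hc : Continuous fc) (hl : Continuous fl) :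
    MemLp (PF r fc fl) 2 (AddCircle.haarAddCircle : Measure UnitAddCircle) := by
  obtain ⟨M, hM⟩ := PF_bdd (r := r) hc hl
  exact MemLp.of_bound (PF_meas hc hl).aestronglyMeasurable M (Eventually.of_forall hM)

lemma PF_core {r : ℝ} (hr : 0 < r) (hr8 : r ≤ 1 / 8) {fc fl : ℝ → ℂ} {s : ℝ} (hs : |s| < r) :
    PF r fc fl (s : ℝ) = fc |s| := by
  unfold PF
  rw [norm_coe_circle (by linarith), if_pos hs]

lemma PF_lay {r : ℝ} (hr8 : r ≤ 1 / 8) {fc fl : ℝ → ℂ} {s : ℝ} (hs : r ≤ |s|)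
    (hs2 : |s| < 2 * r) : PF r fc fl (s : ℝ) = fl |s| := by
  unfold PF
  rw [norm_coe_circle (by linarith), if_neg (not_lt.2 hs), if_pos hs2]

lemma PF_out {r : ℝ} (hr : 0 < r) {fc fl : ℝ → ℂ} {s : ℝ} (hs : 2 * r ≤ |s|)
    (hs2 : |s| ≤ 1 / 2) : PF r fc fl (s : ℝ) = 0 := by
  unfold PF
  rw [norm_coe_circle hs2, if_neg (by linarith), if_neg (by linarith)]

lemma PF_coe_aesm {r : ℝ} {fc fl : ℝ → ℂ} (hc : Continuous fc) (hl : Continuous fl) :
    Measurable (fun s : ℝ => PF r fc fl s) :=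
  (PF_meas hc hl).comp AddCircle.measurable_mk'

lemma PF_normSq {r : ℝ} (hr : 0 < r) (hr8 : r ≤ 1 / 8) {fc fl : ℝ → ℂ} (hc : Continuous fc)
    (hl : Continuous fl) :
    ∫ x, ‖PF r fc fl x‖ ^ 2 ∂AddCircle.haarAddCircle =
      2 * ((∫ s in (0 : ℝ)..r, ‖fc s‖ ^ 2) + ∫ s in r..(2 * r), ‖fl s‖ ^ 2) := by
  obtain ⟨M, hM⟩ := PF_bdd (r := r) hc hl
  rw [circle_integral_eq hr hr8 (fun x => ‖PF r fc fl x‖ ^ 2)
    ((PF_coe_aesm hc hl).norm.pow_const 2).aestronglyMeasurable (M ^ 2)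
    (fun x => by
      rw [Real.norm_eq_abs, abs_of_nonneg (by positivity)]
      exact pow_le_pow_left₀ (norm_nonneg _) (hM x) 2)
    (fun s => 2 * ‖fc s‖ ^ 2) (fun s => 2 * ‖fl s‖ ^ 2)]
  · rw [intervalIntegral.integral_const_mul, intervalIntegral.integral_const_mul]; ring
  · intro s hs
    have h1 : |s| = s := abs_of_pos hs.1
    have h2 : |-s| = s := by rw [abs_neg, h1]
    rw [PF_core hr hr8 (by rw [h1]; exact hs.2), PF_core hr hr8 (by rw [h2]; exact hs.2), h1, h2]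
    ring
  · intro s hs
    have h1 : |s| = s := abs_of_pos (hr.trans hs.1)
    have h2 : |-s| = s := by rw [abs_neg, h1]
    rw [PF_lay hr8 (by rw [h1]; exact hs.1.le) (by rw [h1]; exact hs.2),
      PF_lay hr8 (by rw [h2]; exact hs.1.le) (by rw [h2]; exact hs.2), h1, h2]
    ring
  · intro s hs
    have h1 : |s| = s := abs_of_pos ((by linarith : (0 : ℝ) < 2 * r).trans hs.1)
    have h2 : |-s| = s := by rw [abs_neg, h1]
    rw [PF_out hr (by rw [h1]; exact hs.1.le) (by rw [h1]; exact hs.2.le),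
      PF_out hr (by rw [h2]; exact hs.1.le) (by rw [h2]; exact hs.2.le)]
    simp

lemma PF_fourier {r : ℝ} (hr : 0 < r) (hr8 : r ≤ 1 / 8) {fc fl : ℝ → ℂ} (hc : Continuous fc)
    (hl : Continuous fl) (j : ℤ) :
    fourierCoeff (PF r fc fl) j =
      2 * ((∫ s in (0 : ℝ)..r, (Real.cos (2 * π * j * s) : ℂ) * fc s) +
        ∫ s in r..(2 * r), (Real.cos (2 * π * j * s) : ℂ) * fl s) := by
  obtain ⟨M, hM⟩ := PF_bdd (r := r) hc hl
  have hcos : ∀ s : ℝ, fourier (-j) ((s : ℝ) : UnitAddCircle) +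
      fourier (-j) ((-s : ℝ) : UnitAddCircle) = 2 * (Real.cos (2 * π * j * s) : ℂ) := by
    intro s
    rw [fourier_coe_apply, fourier_coe_apply, Complex.ofReal_cos, Complex.cos]
    push_cast
    have h1 : 2 * (π : ℂ) * I * -(j : ℂ) * (s : ℂ) / 1 = -(2 * π * j * s) * I := by ring
    have h2 : 2 * (π : ℂ) * I * -(j : ℂ) * -(s : ℂ) / 1 = (2 * π * j * s) * I := by ring
    rw [h1, h2]; ring
  unfold fourierCoeff
  rw [circle_integral_eq hr hr8 (fun x => fourier (-j) x • PF r fc fl x) ?_ M ?_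
    (fun s => 2 * ((Real.cos (2 * π * j * s) : ℂ) * fc s))
    (fun s => 2 * ((Real.cos (2 * π * j * s) : ℂ) * fl s))]
  · rw [intervalIntegral.integral_const_mul, intervalIntegral.integral_const_mul]; ring
  · intro s hs
    have h1 : |s| = s := abs_of_pos hs.1
    have h2 : |-s| = s := by rw [abs_neg, h1]
    rw [PF_core hr hr8 (by rw [h1]; exact hs.2), PF_core hr hr8 (by rw [h2]; exact hs.2), h1, h2,
      ← add_smul, hcos, smul_eq_mul]
    ring
  · intro s hs
    have h1 : |s| = s := abs_of_pos (hr.trans hs.1)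
    have h2 : |-s| = s := by rw [abs_neg, h1]
    rw [PF_lay hr8 (by rw [h1]; exact hs.1.le) (by rw [h1]; exact hs.2),
      PF_lay hr8 (by rw [h2]; exact hs.1.le) (by rw [h2]; exact hs.2), h1, h2,
      ← add_smul, hcos, smul_eq_mul]
    ring
  · intro s hs
    have h1 : |s| = s := abs_of_pos ((by linarith : (0 : ℝ) < 2 * r).trans hs.1)
    have h2 : |-s| = s := by rw [abs_neg, h1]
    rw [PF_out hr (by rw [h1]; exact hs.1.le) (by rw [h1]; exact hs.2.le),
      PF_out hr (by rw [h2]; exact hs.1.le) (by rw [h2]; exact hs.2.le)]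
    simp
  · refine Measurable.aestronglyMeasurable ?_
    have h3 : Measurable (fun x : UnitAddCircle => (fourier (-j) x : ℂ)) :=
      (ContinuousMap.continuous _).measurable
    exact (h3.smul (PF_meas hc hl)).comp AddCircle.measurable_mk'
  · intro x
    rw [norm_smul]
    have : ‖(fourier (-j) x : ℂ)‖ = 1 := by rw [fourier_apply]; exact Circle.norm_coe _
    rw [this, one_mul]
    exact hM x

end

end Pool.Agent.W805.ER
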