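import Pool.Agent.W805.ER.QMa

/-! the explicit quasi-mode on the circle. -/

open MeasureTheory Complex Filter Topology Set
open scoped ENNReal Real

namespace Pool.Agent.W805.ER

noncomputable section

def kap (r : ℝ) : ℝ := π / (2 * r)
def om (p : ℝ) : ℂ := (p : ℂ) * (1 + I)
def al (r p : ℝ) : ℂ := (kap r : ℂ) / om p
def Wc (r p s : ℝ) : ℂ := ((Real.cos (kap r * s) : ℝ) : ℂ) + al r p
def Wc1 (r s : ℝ) : ℂ := ((-(kap r * Real.sin (kap r * s)) : ℝ) : ℂ)
def Wc2 (r s : ℝ) : ℂ := ((-(kap r ^ 2 * Real.cos (kap r * s)) : ℝ) : ℂ)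
def X0 (t : ℝ) : ℝ := 1 - 3 * t ^ 2 + 2 * t ^ 3
def X1 (t : ℝ) : ℝ := -6 * t + 6 * t ^ 2
def X2 (t : ℝ) : ℝ := -6 + 12 * t
def Ex (r p s : ℝ) : ℂ := cexp (-(om p) * ((s - r : ℝ) : ℂ))
def Wl (r p s : ℝ) : ℂ := al r p * (Ex r p s * ((X0 ((s - r) / r) : ℝ) : ℂ))
def Wl1 (r p s : ℝ) : ℂ :=
  al r p * (Ex r p s * (-(om p) * ((X0 ((s - r) / r) : ℝ) : ℂ) + ((X1 ((s - r) / r) / r : ℝ) : ℂ)))
def Wl2 (r p s : ℝ) : ℂ :=
  al r p * (Ex r p s * ((om p) ^ 2 * ((X0 ((s - r) / r) : ℝ) : ℂ) -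
    2 * om p * ((X1 ((s - r) / r) / r : ℝ) : ℂ) + ((X2 ((s - r) / r) / r ^ 2 : ℝ) : ℂ)))

lemma om_ne {p : ℝ} (hp : 0 < p) : om p ≠ 0 := by
  unfold om
  refine mul_ne_zero (by exact_mod_cast hp.ne') ?_
  intro h
  have := congrArg Complex.re h
  simp at this

lemma om_sq (p : ℝ) : om p ^ 2 = ((2 * p ^ 2 : ℝ) : ℂ) * I := by
  unfold om
  have : (1 + I) ^ 2 = 2 * I := by
    rw [add_sq, I_sq]; ring
  rw [mul_pow, this]; push_cast; ring

lemma norm_om {p : ℝ} (hp : 0 < p) : p ≤ ‖om p‖ := by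
  have h : (om p).re = p := by simp [om]
  calc p = |(om p).re| := by rw [h, abs_of_pos hp]
    _ ≤ ‖om p‖ := Complex.abs_re_le_norm _

lemma kap_pos {r : ℝ} (hr : 0 < r) : 0 < kap r := by unfold kap; positivity

lemma norm_al {r p : ℝ} (hr : 0 < r) (hp : 0 < p) : ‖al r p‖ ≤ kap r / p := by
  unfold al
  rw [norm_div, Complex.norm_real, Real.norm_eq_abs, abs_of_pos (kap_pos hr)]
  exact div_le_div_of_nonneg_left (kap_pos hr).le hp (norm_om hp)

lemma norm_al_om {r p : ℝ} (hr : 0 < r) (hp : 0 < p) : ‖al r p‖ * ‖om p‖ = kap r := by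
  unfold al
  rw [norm_div, Complex.norm_real, Real.norm_eq_abs, abs_of_pos (kap_pos hr)]
  have : ‖om p‖ ≠ 0 := norm_ne_zero_iff.2 (om_ne hp)
  field_simp

lemma hasDerivAt_Ex (r p s : ℝ) : HasDerivAt (Ex r p) (-(om p) * Ex r p s) s := by
  unfold Ex
  have h1 : HasDerivAt (fun s : ℝ => ((s - r : ℝ) : ℂ)) 1 s := by
    have := ((hasDerivAt_id s).sub_const r).ofReal_comp
    simpa using this
  have h2 := (h1.const_mul (-(om p))).cexp
  convert h2 using 1
  ring

lemma hasDerivAt_X0 (r s : ℝ) :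
    HasDerivAt (fun s : ℝ => ((X0 ((s - r) / r) : ℝ) : ℂ)) ((X1 ((s - r) / r) / r : ℝ) : ℂ) s := by
  have h1 : HasDerivAt (fun s : ℝ => (s - r) / r) (1 / r) s :=
    ((hasDerivAt_id s).sub_const r).div_const r
  have h2 : HasDerivAt (fun s : ℝ => X0 ((s - r) / r)) (X1 ((s - r) / r) / r) s := by
    unfold X0 X1
    have h3 := (((h1.pow 2).const_mul 3).const_sub 1).add ((h1.pow 3).const_mul 2)
    refine HasDerivAt.congr_deriv h3 ?_
    push_cast
    ring
  exact h2.ofReal_comp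

lemma hasDerivAt_X1 (r s : ℝ) :
    HasDerivAt (fun s : ℝ => ((X1 ((s - r) / r) / r : ℝ) : ℂ))
      ((X2 ((s - r) / r) / r ^ 2 : ℝ) : ℂ) s := by
  have h1 : HasDerivAt (fun s : ℝ => (s - r) / r) (1 / r) s :=
    ((hasDerivAt_id s).sub_const r).div_const r
  have h2 : HasDerivAt (fun s : ℝ => X1 ((s - r) / r) / r) (X2 ((s - r) / r) / r ^ 2) s := by
    unfold X1 X2
    have h3 := ((h1.const_mul (-6)).add ((h1.pow 2).const_mul 6)).div_const r
    refine HasDerivAt.congr_deriv h3 ?_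
    push_cast
    ring
  exact h2.ofReal_comp

lemma hasDerivAt_Wl (r p s : ℝ) : HasDerivAt (Wl r p) (Wl1 r p s) s := by
  unfold Wl Wl1
  have h := ((hasDerivAt_Ex r p s).mul (hasDerivAt_X0 r s)).const_mul (al r p)
  refine HasDerivAt.congr_deriv h ?_
  ring

lemma hasDerivAt_Wl1 (r p s : ℝ) : HasDerivAt (Wl1 r p) (Wl2 r p s) s := by
  unfold Wl1 Wl2
  have h := ((hasDerivAt_Ex r p s).mul (((hasDerivAt_X0 r s).const_mul (-(om p))).add
    (hasDerivAt_X1 r s))).const_mul (al r p)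
  refine HasDerivAt.congr_deriv h ?_
  simp only [Pi.add_apply]
  ring

lemma hasDerivAt_Wc (r p s : ℝ) : HasDerivAt (Wc r p) (Wc1 r s) s := by
  unfold Wc Wc1
  have h1 : HasDerivAt (fun s : ℝ => kap r * s) (kap r) s := by
    simpa using (hasDerivAt_id s).const_mul (kap r)
  have h2 : HasDerivAt (fun s : ℝ => Real.cos (kap r * s)) (-(kap r * Real.sin (kap r * s))) s := by
    convert h1.cos using 1; ring
  exact h2.ofReal_comp.add_const _

lemma hasDerivAt_Wc1 (r s : ℝ) : HasDerivAt (Wc1 r) (Wc2 r s) s := by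
  unfold Wc1 Wc2
  have h1 : HasDerivAt (fun s : ℝ => kap r * s) (kap r) s := by
    simpa using (hasDerivAt_id s).const_mul (kap r)
  have h2 : HasDerivAt (fun s : ℝ => -(kap r * Real.sin (kap r * s)))
      (-(kap r ^ 2 * Real.cos (kap r * s))) s := by
    refine HasDerivAt.congr_deriv (h1.sin.const_mul (kap r)).neg ?_
    ring
  exact h2.ofReal_comp

lemma cont_Ex (r p : ℝ) : Continuous (Ex r p) :=
  continuous_iff_continuousAt.2 fun s => (hasDerivAt_Ex r p s).continuousAt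
lemma cont_Wl (r p : ℝ) : Continuous (Wl r p) :=
  continuous_iff_continuousAt.2 fun s => (hasDerivAt_Wl r p s).continuousAt
lemma cont_Wc (r p : ℝ) : Continuous (Wc r p) :=
  continuous_iff_continuousAt.2 fun s => (hasDerivAt_Wc r p s).continuousAt
lemma cont_Wc2 (r : ℝ) : Continuous (Wc2 r) := by
  unfold Wc2; fun_prop
lemma cont_Wl2 (r p : ℝ) : Continuous (Wl2 r p) := by
  unfold Wl2 X0 X1 X2
  have := cont_Ex r p
  fun_prop

/-- Green's formula on an interval with the weight `cos (m s)` -/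
lemma green {a b m : ℝ} {f f1 f2 : ℝ → ℂ} (h1 : ∀ s, HasDerivAt f (f1 s) s)
    (h2 : ∀ s, HasDerivAt f1 (f2 s) s) (h3 : Continuous f2) :
    (∫ s in a..b, (Real.cos (m * s) : ℂ) * f2 s) +
      (m : ℂ) ^ 2 * ∫ s in a..b, (Real.cos (m * s) : ℂ) * f s =
    ((Real.cos (m * b) : ℂ) * f1 b + m * (Real.sin (m * b) : ℂ) * f b) -
    ((Real.cos (m * a) : ℂ) * f1 a + m * (Real.sin (m * a) : ℂ) * f a) := by
  have hf : Continuous f := continuous_iff_continuousAt.2 fun s => (h1 s).continuousAt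
  have hm : ∀ s : ℝ, HasDerivAt (fun s : ℝ => m * s) m s := fun s => by
    simpa using (hasDerivAt_id s).const_mul m
  have hc : ∀ s : ℝ, HasDerivAt (fun s : ℝ => ((Real.cos (m * s) : ℝ) : ℂ))
      ((-(m * Real.sin (m * s)) : ℝ) : ℂ) s := by
    intro s
    have : HasDerivAt (fun s : ℝ => Real.cos (m * s)) (-(m * Real.sin (m * s))) s := by
      convert (hm s).cos using 1; ring
    exact this.ofReal_comp
  have hs : ∀ s : ℝ, HasDerivAt (fun s : ℝ => ((Real.sin (m * s) : ℝ) : ℂ))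
      ((m * Real.cos (m * s) : ℝ) : ℂ) s := by
    intro s
    have : HasDerivAt (fun s : ℝ => Real.sin (m * s)) (m * Real.cos (m * s)) s := by
      convert (hm s).sin using 1; ring
    exact this.ofReal_comp
  have hF : ∀ s : ℝ, HasDerivAt
      (fun s : ℝ => ((Real.cos (m * s) : ℝ) : ℂ) * f1 s +
        (m : ℂ) * ((Real.sin (m * s) : ℝ) : ℂ) * f s)
      (((Real.cos (m * s) : ℝ) : ℂ) * f2 s + (m : ℂ) ^ 2 * (((Real.cos (m * s) : ℝ) : ℂ) * f s))
      s := by
    intro s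
    have h := ((hc s).mul (h2 s)).add ((((hs s).const_mul (m : ℂ))).mul (h1 s))
    refine HasDerivAt.congr_deriv h ?_
    push_cast
    ring
  rw [← intervalIntegral.integral_const_mul, ← intervalIntegral.integral_add]
  · exact intervalIntegral.integral_eq_sub_of_hasDerivAt (fun s _ => hF s)
      (Continuous.intervalIntegrable (by fun_prop) _ _)
  · exact Continuous.intervalIntegrable (by fun_prop) _ _
  · exact Continuous.intervalIntegrable (by fun_prop) _ _

/-- the fourier coefficients of the quasi-mode and of (minus) its second derivative -/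
lemma quasi_fourier {r p : ℝ} (hr : 0 < r) (hr8 : r ≤ 1 / 8) (hp : 0 < p) (j : ℤ) :
    fourierCoeff (PF r (fun s => -(1 / (4 * π ^ 2) : ℝ) * Wc2 r s)
      (fun s => -(1 / (4 * π ^ 2) : ℝ) * Wl2 r p s)) j =
    (((j : ℝ) ^ 2 : ℝ) : ℂ) * fourierCoeff (PF r (Wc r p) (Wl r p)) j := by
  have hc2 : Continuous (fun s => (-(1 / (4 * π ^ 2) : ℝ) : ℂ) * Wc2 r s) :=
    continuous_const.mul (cont_Wc2 r)
  have hl2 : Continuous (fun s => (-(1 / (4 * π ^ 2) : ℝ) : ℂ) * Wl2 r p s) :=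
    continuous_const.mul (cont_Wl2 r p)
  rw [PF_fourier hr hr8 hc2 hl2, PF_fourier hr hr8 (cont_Wc r p) (cont_Wl r p)]
  have g1 := green (a := 0) (b := r) (m := 2 * π * j) (hasDerivAt_Wc r p) (hasDerivAt_Wc1 r)
    (cont_Wc2 r)
  have g2 := green (a := r) (b := 2 * r) (m := 2 * π * j) (hasDerivAt_Wl r p)
    (hasDerivAt_Wl1 r p) (cont_Wl2 r p)
  have hkr : kap r * r = π / 2 := by unfold kap; field_simp
  have b1 : Wc1 r 0 = 0 := by simp [Wc1]
  have b2 : Wc r p r = Wl r p r := by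
    simp [Wc, Wl, hkr, Ex, X0]
  have b3 : Wc1 r r = Wl1 r p r := by
    have : al r p * om p = kap r := by
      unfold al; field_simp [om_ne hp]
    simp only [Wc1, Wl1, hkr, Ex, X0, X1, Real.sin_pi_div_two, sub_self, Complex.ofReal_zero,
      mul_zero, Complex.exp_zero, zero_div]
    push_cast
    linear_combination this
  have b4 : Wl r p (2 * r) = 0 := by
    have : (2 * r - r) / r = 1 := by field_simp; ring
    simp [Wl, this, X0]
    right; right; norm_num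
  have b5 : Wl1 r p (2 * r) = 0 := by
    have : (2 * r - r) / r = 1 := by field_simp; ring
    simp only [Wl1, this, X0, X1]
    norm_num
  rw [b1, b2, b3] at g1
  rw [b4, b5] at g2
  simp only [mul_zero, Real.sin_zero, Complex.ofReal_zero, zero_mul, add_zero, sub_zero] at g1
  have e1 : ∀ a b : ℝ, ∀ f : ℝ → ℂ, ∫ s in a..b, (Real.cos (2 * π * j * s) : ℂ) *
      (-(1 / (4 * π ^ 2) : ℝ) * f s) =
      (-(1 / (4 * π ^ 2) : ℝ) : ℂ) * ∫ s in a..b, (Real.cos (2 * π * j * s) : ℂ) * f s := by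
    intro a b f
    rw [← intervalIntegral.integral_const_mul]
    congr 1; ext s; ring
  rw [e1, e1]
  have hpi : (π : ℂ) ≠ 0 := by exact_mod_cast Real.pi_ne_zero
  have key : (∫ s in (0 : ℝ)..r, (Real.cos (2 * π * j * s) : ℂ) * Wc2 r s) +
      (∫ s in r..(2 * r), (Real.cos (2 * π * j * s) : ℂ) * Wl2 r p s) =
      -((2 * π * j : ℝ) : ℂ) ^ 2 *
        ((∫ s in (0 : ℝ)..r, (Real.cos (2 * π * j * s) : ℂ) * Wc r p s) +
        ∫ s in r..(2 * r), (Real.cos (2 * π * j * s) : ℂ) * Wl r p s) := by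
    linear_combination g1 + g2
  rw [← mul_add, key]
  push_cast
  field_simp
  ring

end

end Pool.Agent.W805.ER
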