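import Pool.Agent.W805.ER.Torus

/-! the inductive construction of the damping. -/

open MeasureTheory Complex Filter Topology Set
open scoped ENNReal Real

namespace Pool.Agent.W805.ER

noncomputable section

local instance msStage : MeasureSpace UnitAddCircle := ⟨AddCircle.haarAddCircle⟩
local instance pmStage : IsProbabilityMeasure (volume : Measure UnitAddCircle) :=
  inferInstanceAs (IsProbabilityMeasure AddCircle.haarAddCircle)

/-- the stationary operator `-Δ - τ² + iτβ` applied to `u` (with `g = -Δu`) -/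
def Pop (β : UnitAddCircle → ℝ) (τ : ℝ) (u g : L2) : L2 :=
  g - ((τ ^ 2 : ℝ) : ℂ) • u + ((τ : ℂ) * I) • mulOp volume (lift β) u

/-- lower bound -/
def Low (β : UnitAddCircle → ℝ) (τ c : ℝ) : Prop :=
  ∀ u g : L2, Mult e2 fsq u g → c * ‖u‖ ≤ ‖Pop β τ u g‖

lemma inner_graph_real {u g : L2} (h : Mult e2 fsq u g) : (inner ℂ u g : ℂ).im = 0 := by
  have h1 := e2.hasSum_inner_mul_inner u g
  have h2 : ∀ k, (inner ℂ u (e2 k) * inner ℂ (e2 k) g : ℂ) =
      ((fsq k * ‖e2.repr u k‖ ^ 2 : ℝ) : ℂ) := by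
    intro k
    have hg : inner ℂ (e2 k) g = e2.repr g k := (e2.repr_apply_apply g k).symm
    have hu : inner ℂ u (e2 k) = (starRingEnd ℂ) (e2.repr u k) := by
      rw [e2.repr_apply_apply, inner_conj_symm]
    rw [hg, hu, h k]
    have h5 : (starRingEnd ℂ) (e2.repr u k) * ((fsq k : ℂ) * e2.repr u k) =
        (fsq k : ℂ) * ((starRingEnd ℂ) (e2.repr u k) * e2.repr u k) := by ring
    have h4 : (starRingEnd ℂ) (e2.repr u k) * e2.repr u k = ((‖e2.repr u k‖ ^ 2 : ℝ) : ℂ) := by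
      rw [mul_comm, Complex.mul_conj, Complex.normSq_eq_norm_sq]
    rw [h5, h4]
    push_cast; ring
  have h3 := Complex.hasSum_im h1
  simp_rw [h2, Complex.ofReal_im] at h3
  exact h3.unique hasSum_zero

/-- the dissipation identity -/
lemma diss {β : UnitAddCircle → ℝ} {M : ℝ} (hβ : BM β M) (h0 : ∀ x, 0 ≤ β x) {τ : ℝ} {u g : L2}
    (h : Mult e2 fsq u g) :
    |τ| * qf volume (lift β) u ≤ ‖Pop β τ u g‖ * ‖u‖ := by
  have h1 : (inner ℂ u (Pop β τ u g) : ℂ).im = τ * qf volume (lift β) u := by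
    unfold Pop
    rw [inner_add_right, inner_sub_right, inner_smul_right, inner_smul_right,
      inner_mulOp hβ.lift, inner_self_eq_norm_sq_to_K]
    have h2 := inner_graph_real h
    have h3 : (((‖u‖ : ℝ) : ℂ) ^ 2).im = 0 := by
      rw [← Complex.ofReal_pow, Complex.ofReal_im]
    simp only [Complex.add_im, Complex.sub_im, Complex.mul_im, Complex.ofReal_re,
      Complex.ofReal_im, Complex.I_re, Complex.I_im, Complex.mul_re, h2]
    have h4 : ((RCLike.ofReal ‖u‖ : ℂ) ^ 2).im = 0 := h3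
    rw [h4]; ring
  have h2 : |(inner ℂ u (Pop β τ u g) : ℂ).im| ≤ ‖u‖ * ‖Pop β τ u g‖ :=
    (Complex.abs_im_le_norm _).trans (norm_inner_le_norm _ _)
  rw [h1, abs_mul, abs_of_nonneg (qf_nonneg (b := lift β) (fun x => h0 (x 0)) u)] at h2
  linarith

lemma low_of_quad {N ε A B : ℝ} (hN : 0 ≤ N) (hε : 0 ≤ ε) (hA : 0 ≤ A) (hB : 0 ≤ B)
    (h : N ^ 2 ≤ A * (ε * N) + B * ε ^ 2) : 1 / (A + B + 1) * N ≤ ε := by
  by_contra hc
  push Not at hc
  have hs : 0 < A + B + 1 := by linarith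
  have h1 : ε * (A + B + 1) < N := by
    rw [one_div, inv_mul_eq_div, lt_div_iff₀ hs] at hc
    exact hc
  have hN0 : 0 < N := lt_of_le_of_lt (by positivity) h1
  have h2 : ε ≤ N := by nlinarith
  have h3 : B * ε ^ 2 ≤ B * (ε * N) := by
    apply mul_le_mul_of_nonneg_left _ hB
    nlinarith
  nlinarith

section T
variable {K : ℝ} (hK1 : 1 ≤ K)
  (hK : ∀ (r τ : ℝ) (u g : L2), 0 < r → r ≤ 1 / 4 → Mult e2 fsq u g →
    qf volume (lift (core r)) u ≤
      K * (qf volume (lift (lay r)) u +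
        r ^ 4 * qf volume (lift (core (2 * r))) (g - ((τ ^ 2 : ℝ) : ℂ) • u)))
include hK1 hK

/-- the basic inequality -/
lemma basic {r b τ : ℝ} {β : UnitAddCircle → ℝ} (hr : 0 < r) (hr4 : r ≤ 1 / 4) (hb : 0 < b)
    (hβ : BM β 1) (h0 : ∀ x, 0 ≤ β x) (hout : ∀ x, r ≤ ‖x‖ → b ≤ β x)
    (hin : ∀ x, ‖x‖ < 2 * r → β x ≤ b) (hτ : τ ≠ 0) {u g : L2} (h : Mult e2 fsq u g) :
    ‖u‖ ^ 2 ≤ ((1 + K) / (|τ| * b) + 2 * K * r ^ 4 * (|τ| * b)) * (‖Pop β τ u g‖ * ‖u‖) +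
      2 * K * r ^ 4 * ‖Pop β τ u g‖ ^ 2 := by
  set ε := ‖Pop β τ u g‖ with hε
  set N := ‖u‖ with hN
  have hτ0 : 0 < |τ| := abs_pos.2 hτ
  have hd : |τ| * qf volume (lift β) u ≤ ε * N := diss hβ h0 h
  have bm1 : BM (fun x => 1 - core r x) 1 := by
    refine ⟨measurable_const.sub (bm_core r).meas, fun x => ?_⟩
    unfold core; split_ifs <;> norm_num
  -- exterior
  have hext : b * qf volume (lift (fun x => 1 - core r x)) u ≤ qf volume (lift β) u := by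
    rw [← qf_const_mul]
    refine qf_mono (M := |b|) ⟨measurable_const.mul bm1.lift.meas, ?_⟩ hβ.lift ?_ u
    · intro x
      show |b * (1 - core r (x 0))| ≤ |b|
      rw [abs_mul]
      have := bm1.bd (x 0)
      nlinarith [abs_nonneg b]
    · intro x
      show b * (1 - core r (x 0)) ≤ β (x 0)
      unfold core
      split_ifs with hx
      · simpa using h0 (x 0)
      · simpa using hout (x 0) (not_lt.1 hx)
  have hlay : qf volume (lift (lay r)) u ≤ qf volume (lift (fun x => 1 - core r x)) u := by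
    refine qf_mono (bm_lay r).lift bm1.lift ?_ u
    intro x
    show lay r (x 0) ≤ 1 - core r (x 0)
    unfold lay core
    split_ifs with h1 h2 h2
    · exact absurd h2 (not_lt.2 h1.1)
    · norm_num
    · norm_num
    · norm_num
  have hsplit : N ^ 2 = qf volume (lift (core r)) u +
      qf volume (lift (fun x => 1 - core r x)) u := by
    rw [hN, ← qf_one u, ← qf_add (bm_core r).lift bm1.lift]
    congr 1
    ext x
    show (1 : ℝ) = core r (x 0) + (1 - core r (x 0))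
    ring
  have hT := hK r τ u g hr hr4 h
  -- the last term
  have hlast : qf volume (lift (core (2 * r))) (g - ((τ ^ 2 : ℝ) : ℂ) • u) ≤
      2 * ε ^ 2 + 2 * (|τ| * b) * (ε * N) := by
    have e : g - ((τ ^ 2 : ℝ) : ℂ) • u =
        Pop β τ u g - ((τ : ℂ) * I) • mulOp volume (lift β) u := by
      unfold Pop; abel
    rw [e]
    refine (qf_sub_le (bm_core (2 * r)).lift (fun x => core_nonneg _ _) _ _).trans ?_
    have h1 : qf volume (lift (core (2 * r))) (Pop β τ u g) ≤ ε ^ 2 := by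
      rw [hε, ← qf_one (Pop β τ u g)]
      refine qf_mono (bm_core (2 * r)).lift (M' := 1) ⟨measurable_const, by simp⟩ ?_ _
      intro x
      show core (2 * r) (x 0) ≤ 1
      unfold core; split_ifs <;> norm_num
    have h2 : qf volume (lift (core (2 * r))) (((τ : ℂ) * I) • mulOp volume (lift β) u) ≤
        τ ^ 2 * b * qf volume (lift β) u := by
      rw [← qf_const_mul]
      unfold qf
      have hbm2 : BM (fun x => τ ^ 2 * b * lift β x) (τ ^ 2 * |b|) := by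
        refine ⟨measurable_const.mul hβ.lift.meas, fun x => ?_⟩
        rw [abs_mul, abs_mul, abs_of_nonneg (sq_nonneg τ)]
        have := hβ.lift.bd x
        have h5 : 0 ≤ τ ^ 2 * |b| := by positivity
        nlinarith
      refine integral_mono_ae ((bm_core (2 * r)).lift.int _) (hbm2.int u) ?_
      filter_upwards [mulOp_ae hβ.lift u,
        Lp.coeFn_smul ((τ : ℂ) * I) (mulOp volume (lift β) u)] with x h3 h4
      rw [h4, Pi.smul_apply, h3, norm_smul, norm_mul, norm_mul, Complex.norm_I, mul_one,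
        Complex.norm_real, Complex.norm_real, Real.norm_eq_abs, Real.norm_eq_abs, mul_pow, mul_pow,
        sq_abs, sq_abs]
      show core (2 * r) (x 0) * (τ ^ 2 * (β (x 0) ^ 2 * ‖u x‖ ^ 2)) ≤
        τ ^ 2 * b * β (x 0) * ‖u x‖ ^ 2
      unfold core
      split_ifs with hx
      · have h6 := hin (x 0) hx
        have h7 := h0 (x 0)
        have h8 : β (x 0) ^ 2 ≤ b * β (x 0) := by nlinarith
        have h9 : 0 ≤ τ ^ 2 * ‖u x‖ ^ 2 := by positivity
        nlinarith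
      · have h7 := h0 (x 0)
        rw [zero_mul]
        positivity
    have h3 : τ ^ 2 * b * qf volume (lift β) u ≤ (|τ| * b) * (ε * N) := by
      have : τ ^ 2 * b * qf volume (lift β) u = (|τ| * b) * (|τ| * qf volume (lift β) u) := by
        rw [← sq_abs τ]; ring
      rw [this]
      exact mul_le_mul_of_nonneg_left hd (by positivity)
    linarith
  have hext2 : qf volume (lift (fun x => 1 - core r x)) u ≤ ε * N / (|τ| * b) := by
    rw [le_div_iff₀ (by positivity)]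
    nlinarith
  have hr0 : 0 ≤ r ^ 4 := by positivity
  have hK0 : 0 ≤ K := by linarith
  have hfin : N ^ 2 ≤ K * (ε * N / (|τ| * b) +
      r ^ 4 * (2 * ε ^ 2 + 2 * (|τ| * b) * (ε * N))) + ε * N / (|τ| * b) := by
    rw [hsplit]
    refine add_le_add (hT.trans (mul_le_mul_of_nonneg_left ?_ hK0)) hext2
    exact add_le_add (hlay.trans hext2) (mul_le_mul_of_nonneg_left hlast hr0)
  refine hfin.trans (le_of_eq ?_)
  ring

lemma low_range {r b τ σ S : ℝ} {β : UnitAddCircle → ℝ} (hr : 0 < r) (hr4 : r ≤ 1 / 4)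
    (hb : 0 < b) (hβ : BM β 1) (h0 : ∀ x, 0 ≤ β x) (hout : ∀ x, r ≤ ‖x‖ → b ≤ β x)
    (hin : ∀ x, ‖x‖ < 2 * r → β x ≤ b) (hσ : 0 < σ) (h1 : σ ≤ |τ| * b) (h2 : |τ| * b ≤ S) :
    Low β τ (1 / (((1 + K) / σ + 2 * K * S) + 2 * K + 1)) := by
  intro u g h
  have hτ : τ ≠ 0 := by
    intro h3; rw [h3] at h1; simp at h1; linarith
  have hτ0 : 0 < |τ| * b := lt_of_lt_of_le hσ h1
  have hK0 : 0 ≤ K := by linarith
  have hS : 0 ≤ S := by linarith
  have hr41 : r ^ 4 ≤ 1 := pow_le_one₀ hr.le (by linarith)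
  have hr40 : 0 ≤ r ^ 4 := by positivity
  have hb1 := basic hK1 hK hr hr4 hb hβ h0 hout hin hτ h
  refine low_of_quad (norm_nonneg _) (norm_nonneg _) (by positivity) (by positivity) ?_
  refine hb1.trans ?_
  have hεN : 0 ≤ ‖Pop β τ u g‖ * ‖u‖ := by positivity
  have e1 : (1 + K) / (|τ| * b) ≤ (1 + K) / σ :=
    div_le_div_of_nonneg_left (by linarith) hσ h1
  have e2 : 2 * K * r ^ 4 * (|τ| * b) ≤ 2 * K * S := by
    have : 2 * K * r ^ 4 ≤ 2 * K := by nlinarith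
    calc 2 * K * r ^ 4 * (|τ| * b) ≤ 2 * K * (|τ| * b) :=
          mul_le_mul_of_nonneg_right this hτ0.le
      _ ≤ 2 * K * S := mul_le_mul_of_nonneg_left h2 (by positivity)
  have e3 : 2 * K * r ^ 4 ≤ 2 * K := by nlinarith
  exact add_le_add (mul_le_mul_of_nonneg_right (add_le_add e1 e2) hεN)
    (mul_le_mul_of_nonneg_right e3 (by positivity))

lemma low_T0 {r b τ : ℝ} {β : UnitAddCircle → ℝ} (hr : 0 < r) (hr4 : r ≤ 1 / 4)
    (hb : 0 < b) (hβ : BM β 1) (h0 : ∀ x, 0 ≤ β x) (hout : ∀ x, r ≤ ‖x‖ → b ≤ β x)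
    (hin : ∀ x, ‖x‖ < 2 * r → β x ≤ b) (hsm : 2 * K * r ^ 4 * (4 * (1 + K)) ≤ 1 / 4)
    (h1 : |τ| * b = 4 * (1 + K)) : Low β τ 1 := by
  intro u g h
  have hK0 : 0 ≤ K := by linarith
  have hτ : τ ≠ 0 := by
    intro h3; rw [h3] at h1; simp at h1; linarith
  have hb1 := basic hK1 hK hr hr4 hb hβ h0 hout hin hτ h
  rw [h1] at hb1
  rw [one_mul]
  by_contra hc
  push Not at hc
  set ε := ‖Pop β τ u g‖
  set N := ‖u‖
  have hε : 0 ≤ ε := norm_nonneg _
  have hN : 0 < N := lt_of_le_of_lt hε hc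
  have e1 : (1 + K) / (4 * (1 + K)) = 1 / 4 := by
    field_simp
  have hr40 : 0 ≤ 2 * K * r ^ 4 := by positivity
  have e2 : 2 * K * r ^ 4 ≤ 1 / 4 := by nlinarith
  rw [e1] at hb1
  have e3 : (1 / 4 + 2 * K * r ^ 4 * (4 * (1 + K))) * (ε * N) ≤ (1 / 2) * (N * N) := by
    have : ε * N ≤ N * N := mul_le_mul_of_nonneg_right hc.le hN.le
    have h5 : 0 ≤ ε * N := by positivity
    nlinarith
  have e4 : 2 * K * r ^ 4 * ε ^ 2 ≤ (1 / 4) * (N * N) := by
    have : ε ^ 2 ≤ N * N := by nlinarith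
    have h5 : 0 ≤ ε ^ 2 := by positivity
    nlinarith
  nlinarith

end T

lemma Pop_sub_beta {β β' : UnitAddCircle → ℝ} {M M' c : ℝ} (h : BM β M) (h' : BM β' M')
    (hc : ∀ x, |β x - β' x| ≤ c) (τ : ℝ) (u g : L2) :
    ‖Pop β τ u g - Pop β' τ u g‖ ≤ |τ| * (c * ‖u‖) := by
  have e : Pop β τ u g - Pop β' τ u g =
      ((τ : ℂ) * I) • (mulOp volume (lift β) u - mulOp volume (lift β') u) := by
    unfold Pop; rw [smul_sub]; abel
  rw [e, norm_smul, norm_mul, Complex.norm_I, mul_one, Complex.norm_real, Real.norm_eq_abs]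
  exact mul_le_mul_of_nonneg_left
    (norm_mulOp_sub_le h.lift h'.lift (fun x => hc (x 0)) u) (abs_nonneg _)

lemma Pop_sub_tau {β : UnitAddCircle → ℝ} (h : BM β 1) (τ τ' : ℝ) (u g : L2) :
    ‖Pop β τ u g - Pop β τ' u g‖ ≤ (|τ ^ 2 - τ' ^ 2| + |τ - τ'|) * ‖u‖ := by
  have e : Pop β τ u g - Pop β τ' u g =
      ((τ' ^ 2 - τ ^ 2 : ℝ) : ℂ) • u + (((τ - τ' : ℝ) : ℂ) * I) • mulOp volume (lift β) u := by
    unfold Pop
    push_cast
    module
  rw [e]
  refine (norm_add_le _ _).trans ?_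
  rw [norm_smul, norm_smul, norm_mul, Complex.norm_I, mul_one, Complex.norm_real,
    Complex.norm_real, Real.norm_eq_abs, Real.norm_eq_abs, abs_sub_comm (τ' ^ 2), add_mul]
  have := norm_mulOp_le h.lift u (μ := volume)
  rw [one_mul] at this
  exact add_le_add le_rfl (mul_le_mul_of_nonneg_left this (abs_nonneg _))

lemma Pop_continuous (β : UnitAddCircle → ℝ) (u g : L2) :
    Continuous (fun τ : ℝ => Pop β τ u g) := by
  unfold Pop
  fun_prop

/-- a stage of the construction -/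
structure St (r0 : ℝ) (n : ℕ) where
  B : UnitAddCircle → ℝ
  b : ℝ
  bm : BM B 1
  nn : ∀ x, 0 ≤ B x
  b0 : 0 < b
  b1 : b ≤ 1
  out : ∀ x, r0 / 2 ^ (n + 1) ≤ ‖x‖ → b ≤ B x
  inn : ∀ x, ‖x‖ < r0 / 2 ^ n → B x ≤ b
  zero : ∀ x, ‖x‖ < r0 / 2 ^ (n + 1) → B x = 0

lemma rad_two (r0 : ℝ) (n : ℕ) : 2 * (r0 / 2 ^ (n + 1)) = r0 / 2 ^ n := by
  rw [pow_succ]; field_simp

section T2
variable {K : ℝ} (hK1 : 1 ≤ K)
  (hK : ∀ (r τ : ℝ) (u g : L2), 0 < r → r ≤ 1 / 4 → Mult e2 fsq u g →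
    qf volume (lift (core r)) u ≤
      K * (qf volume (lift (lay r)) u +
        r ^ 4 * qf volume (lift (core (2 * r))) (g - ((τ ^ 2 : ℝ) : ℂ) • u)))
  (hQ : TaskQM2) {r0 : ℝ} (hr0 : 0 < r0) (hr08 : r0 ≤ 1 / 8)
  (hsm : 2 * K * r0 ^ 4 * (4 * (1 + K)) ≤ 1 / 4)
include hK1 hK hQ hr0 hr08 hsm

lemma first_failure {n : ℕ} (s : St r0 n) :
    ∃ τ₁, 4 * (1 + K) / s.b ≤ τ₁ ∧
      (∀ τ, 4 * (1 + K) / s.b ≤ |τ| → |τ| ≤ τ₁ → Low s.B τ (1 / 2)) ∧
      ∃ σ, |σ| = τ₁ ∧ ∃ u g : L2, u ≠ 0 ∧ Mult e2 fsq u g ∧ ‖Pop s.B σ u g‖ ≤ ‖u‖ := by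
  set T0 := 4 * (1 + K) / s.b with hT0
  have hb := s.b0
  have hK0 : 0 ≤ K := by linarith
  have hT0pos : 0 < T0 := by positivity
  have hrpos : 0 < r0 / 2 ^ (n + 1) := by positivity
  have hrle : r0 / 2 ^ (n + 1) ≤ r0 := div_le_self hr0.le (one_le_pow₀ (by norm_num))
  have hin : ∀ x, ‖x‖ < 2 * (r0 / 2 ^ (n + 1)) → s.B x ≤ s.b := by
    rw [rad_two]; exact s.inn
  have hsm' : 2 * K * (r0 / 2 ^ (n + 1)) ^ 4 * (4 * (1 + K)) ≤ 1 / 4 := by
    refine le_trans ?_ hsm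
    have : (r0 / 2 ^ (n + 1)) ^ 4 ≤ r0 ^ 4 := pow_le_pow_left₀ hrpos.le hrle 4
    exact mul_le_mul_of_nonneg_right (mul_le_mul_of_nonneg_left this (by positivity))
      (by positivity)
  have hlowT0 : ∀ τ, |τ| = T0 → Low s.B τ 1 := by
    intro τ hτ
    refine low_T0 hK1 hK hrpos (by linarith) hb s.bm s.nn s.out hin hsm' ?_
    rw [hτ, hT0]; field_simp
  set F : Set ℝ := {τ | T0 ≤ τ ∧ ∃ σ, |σ| = τ ∧ ¬ Low s.B σ (1 / 2)} with hF
  have hFne : F.Nonempty := by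
    obtain ⟨τ, hτ, u, g, hu, hug, hle⟩ := hQ (r0 / 2 ^ (n + 1)) s.b s.B hrpos
      (by linarith) hb s.bm.meas s.nn (fun x => (le_abs_self _).trans (s.bm.bd x)) s.zero
      (fun x h1 h2 => le_antisymm (hin x h2) (s.out x h1)) (1 / 4) (by norm_num) T0
    refine ⟨τ, hτ, τ, abs_of_pos (lt_of_lt_of_le hT0pos hτ), ?_⟩
    intro hlow
    have h1 := hlow u g hug
    have h2 : ‖Pop s.B τ u g‖ ≤ 1 / 4 * ‖u‖ := hle
    have h3 : 0 < ‖u‖ := norm_pos_iff.2 hu
    linarith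
  have hFbdd : BddBelow F := ⟨T0, fun τ h => h.1⟩
  set τ₁ := sInf F with hτ₁
  have hT1 : T0 ≤ τ₁ := le_csInf hFne fun τ h => h.1
  have hbelow : ∀ τ, T0 ≤ |τ| → |τ| < τ₁ → Low s.B τ (1 / 2) := by
    intro τ h1 h2
    by_contra hc
    exact absurd (csInf_le hFbdd (show |τ| ∈ F from ⟨h1, τ, rfl, hc⟩)) (not_le.2 h2)
  have hlow : ∀ τ, T0 ≤ |τ| → |τ| ≤ τ₁ → Low s.B τ (1 / 2) := by
    intro τ h1 h2
    rcases lt_or_eq_of_le h2 with h3 | h3
    · exact hbelow τ h1 h3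
    · rcases lt_or_eq_of_le h1 with h4 | h4
      · intro u g hug
        have hc : Tendsto (fun θ : ℝ => ‖Pop s.B (θ * τ) u g‖) (𝓝[<] 1)
            (𝓝 ‖Pop s.B τ u g‖) := by
          have : Continuous (fun θ : ℝ => ‖Pop s.B (θ * τ) u g‖) :=
            ((Pop_continuous s.B u g).comp (continuous_id.mul continuous_const)).norm
          have h5 := this.tendsto 1
          simp only [one_mul] at h5
          exact h5.mono_left nhdsWithin_le_nhds
        refine ge_of_tendsto hc ?_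
        have hτpos : 0 < |τ| := lt_of_lt_of_le hT0pos h1
        have h6 : T0 / |τ| < 1 := by rw [div_lt_one hτpos]; exact h4
        have h7 : ∀ᶠ θ : ℝ in 𝓝[<] 1, θ ∈ Ioo (T0 / |τ|) 1 := Ioo_mem_nhdsLT h6
        filter_upwards [h7] with θ hθ
        have hθ0 : 0 < θ := lt_trans (by positivity) hθ.1
        have h8 : |θ * τ| = θ * |τ| := by rw [abs_mul, abs_of_pos hθ0]
        refine hbelow (θ * τ) ?_ ?_ u g hug
        · rw [h8]
          have := hθ.1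
          rw [div_lt_iff₀ hτpos] at this
          exact this.le
        · rw [h8, ← h3]
          have := hθ.2
          nlinarith
      · intro u g hug
        have := hlowT0 τ h4.symm u g hug
        have h5 := norm_nonneg u
        linarith
  refine ⟨τ₁, hT1, hlow, ?_⟩
  have hτ₁pos : 0 < τ₁ := lt_of_lt_of_le hT0pos hT1
  set δ := 1 / (2 * (2 * τ₁ + 2)) with hδ
  have hδpos : 0 < δ := by positivity
  have hδ1 : δ ≤ 1 := by
    rw [hδ, div_le_one (by positivity)]; linarith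
  obtain ⟨τ', hτ'F, hτ'lt⟩ := exists_lt_of_csInf_lt hFne (show sInf F < τ₁ + δ by linarith)
  have hτ'ge : τ₁ ≤ τ' := csInf_le hFbdd hτ'F
  obtain ⟨_, σ', hσ', hnl⟩ := hτ'F
  unfold Low at hnl
  push Not at hnl
  obtain ⟨u, g, hug, hlt⟩ := hnl
  have hτ'pos : 0 < τ' := lt_of_lt_of_le hτ₁pos hτ'ge
  have hupos : 0 < ‖u‖ := by
    have := norm_nonneg (Pop s.B σ' u g)
    have h5 := norm_nonneg u
    rcases h5.eq_or_lt with h6 | h6
    · rw [← h6] at hlt; linarith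
    · exact h6
  refine ⟨σ' * (τ₁ / τ'), ?_, u, g, norm_pos_iff.1 hupos, hug, ?_⟩
  · rw [abs_mul, hσ', abs_of_pos (by positivity)]
    field_simp
  · have h1 := Pop_sub_tau s.bm (σ' * (τ₁ / τ')) σ' u g
    have hq : τ₁ / τ' ≤ 1 := (div_le_one hτ'pos).2 hτ'ge
    have h2 : |(σ' * (τ₁ / τ')) ^ 2 - σ' ^ 2| = τ' ^ 2 - τ₁ ^ 2 := by
      have : (σ' * (τ₁ / τ')) ^ 2 - σ' ^ 2 = τ₁ ^ 2 - τ' ^ 2 := by
        rw [mul_pow, ← sq_abs σ', hσ']
        field_simp
      rw [this, abs_sub_comm, abs_of_nonneg (by nlinarith)]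
    have h3 : |σ' * (τ₁ / τ') - σ'| = τ' - τ₁ := by
      have : σ' * (τ₁ / τ') - σ' = σ' * (τ₁ / τ' - 1) := by ring
      rw [this, abs_mul, hσ', abs_of_nonpos (by linarith)]
      field_simp
      ring
    rw [h2, h3] at h1
    have h4 : (τ' ^ 2 - τ₁ ^ 2) + (τ' - τ₁) ≤ 1 / 2 := by
      have h5 : τ' - τ₁ ≤ δ := by linarith
      have h6 : (τ' ^ 2 - τ₁ ^ 2) + (τ' - τ₁) = (τ' - τ₁) * (τ' + τ₁ + 1) := by ring
      have h7 : τ' + τ₁ + 1 ≤ 2 * τ₁ + 2 := by linarith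
      have h8 : (τ' - τ₁) * (τ' + τ₁ + 1) ≤ δ * (2 * τ₁ + 2) :=
        mul_le_mul h5 h7 (by linarith) hδpos.le
      have h9 : δ * (2 * τ₁ + 2) = 1 / 2 := by
        rw [hδ]; field_simp
      linarith
    have h5 : ‖Pop s.B (σ' * (τ₁ / τ')) u g‖ ≤
        ‖Pop s.B σ' u g‖ + ‖Pop s.B (σ' * (τ₁ / τ')) u g - Pop s.B σ' u g‖ := by
      have := norm_add_le (Pop s.B σ' u g) (Pop s.B (σ' * (τ₁ / τ')) u g - Pop s.B σ' u g)
      rwa [add_sub_cancel] at this
    have h6 : ((τ' ^ 2 - τ₁ ^ 2) + (τ' - τ₁)) * ‖u‖ ≤ 1 / 2 * ‖u‖ :=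
      mul_le_mul_of_nonneg_right h4 hupos.le
    linarith

end T2

end

end Pool.Agent.W805.ER
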