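import Mathlib

/-!
# The damped wave equation on the flat 2-torus: definitions for MP_d893f8_an

The torus `ℝ²/(2πℤ)²` is modelled by `UnitAddTorus (Fin 2) = (ℝ/ℤ)²`: the class of `s` stands
for the point `x = 2π s`.  The character `exp (i k·x)` is `UnitAddTorus.mFourier k`, so that
`-Δ` (Laplacian in the variable `x`) is the Fourier multiplier `|k|² = k₀² + k₁²`.
The measure is the normalised one (total mass one instead of `(2π)²`); this multiplies energies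
and squared Sobolev norms by the same factor.
-/

open MeasureTheory Filter Topology Set

namespace Pool.Agent.W805.DampedTorus

noncomputable section

/-- The circle `ℝ/ℤ` carries its normalised Haar measure (total mass one). -/
local instance : MeasureSpace UnitAddCircle := ⟨AddCircle.haarAddCircle⟩

/-- the flat two-dimensional torus -/
abbrev Torus := UnitAddTorus (Fin 2)

/-- complex valued `L²` functions on the torus -/
abbrev L2 := Lp ℂ 2 (volume : Measure Torus)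

/-- Fourier coefficients `û(k)`, `k ∈ ℤ²` -/
def hat (u : L2) (k : Fin 2 → ℤ) : ℂ := UnitAddTorus.mFourierCoeff u k

/-- the frequency `|k| = (k₀² + k₁²)^(1/2)` -/
def freq (k : Fin 2 → ℤ) : ℝ := Real.sqrt ((k 0 : ℝ) ^ 2 + (k 1 : ℝ) ^ 2)

/-- `g = |∇| u = (-Δ)^(1/2) u` (in particular `u ∈ H¹`) -/
def IsAbsGrad (u g : L2) : Prop := ∀ k, hat g k = (freq k : ℂ) * hat u k

/-- `g = -Δ u` (in particular `u ∈ H²`) -/
def IsNegLaplacian (u g : L2) : Prop := ∀ k, hat g k = ((freq k ^ 2 : ℝ) : ℂ) * hat u k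

/-- `u ∈ H¹` -/
def InH1 (u : L2) : Prop := Summable fun k => (1 + freq k ^ 2) * ‖hat u k‖ ^ 2

/-- `u ∈ H²` -/
def InH2 (u : L2) : Prop := Summable fun k => (1 + freq k ^ 2) ^ 2 * ‖hat u k‖ ^ 2

/-- squared `H¹` norm -/
def h1Sq (u : L2) : ℝ := ∑' k, (1 + freq k ^ 2) * ‖hat u k‖ ^ 2

/-- squared `H²` norm -/
def h2Sq (u : L2) : ℝ := ∑' k, (1 + freq k ^ 2) ^ 2 * ‖hat u k‖ ^ 2

/-- `‖∇u‖²` in `L²` -/
def gradSq (u : L2) : ℝ := ∑' k, freq k ^ 2 * ‖hat u k‖ ^ 2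

/-- the energy `½ (‖∇u‖² + ‖v‖²)`, `v = ∂ₜu` -/
def energy (u v : L2) : ℝ := (gradSq u + ‖v‖ ^ 2) / 2

/-- damping functions: bounded, measurable, nonnegative, not almost everywhere zero -/
structure IsDamping (b : Torus → ℝ) : Prop where
  measurable : Measurable b
  bounded : ∃ M, ∀ x, b x ≤ M
  nonneg : ∀ x, 0 ≤ b x
  nontrivial : ¬ (b =ᵐ[volume] fun _ => 0)

/-- `u` is the classical solution of `∂ₜ²u - Δu + b ∂ₜu = 0` on `[0,∞) × 𝕋²`, with `v = ∂ₜu`: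
`u ∈ C([0,∞);H²) ∩ C¹([0,∞);H¹) ∩ C²([0,∞);L²)`. Here `Gu = |∇|u`, `Gv = |∇|v`, `Lu = -Δu` and
`bv = b v`. -/
def IsSolution (b : Torus → ℝ) (u v : ℝ → L2) : Prop :=
  ∃ Gu Gv Lu bv : ℝ → L2,
    (∀ t, 0 ≤ t → IsAbsGrad (u t) (Gu t)) ∧ (∀ t, 0 ≤ t → IsAbsGrad (v t) (Gv t)) ∧
    (∀ t, 0 ≤ t → IsNegLaplacian (u t) (Lu t)) ∧
    (∀ t, 0 ≤ t → bv t =ᵐ[volume] fun x => (b x : ℂ) * v t x) ∧
    (∀ t, 0 ≤ t → HasDerivWithinAt u (v t) (Ici 0) t) ∧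
    (∀ t, 0 ≤ t → HasDerivWithinAt Gu (Gv t) (Ici 0) t) ∧
    (∀ t, 0 ≤ t → HasDerivWithinAt v (-(Lu t) - bv t) (Ici 0) t) ∧
    ContinuousOn Gv (Ici 0) ∧ ContinuousOn Lu (Ici 0)

/-- for all data `(u₀,u₁) ∈ H² × H¹` there is exactly one solution -/
def WellPosed (b : Torus → ℝ) : Prop :=
  ∀ u₀ u₁ : L2, InH2 u₀ → InH1 u₁ →
    ∃ u v : ℝ → L2, IsSolution b u v ∧ u 0 = u₀ ∧ v 0 = u₁ ∧
      ∀ u' v' : ℝ → L2, IsSolution b u' v' → u' 0 = u₀ → v' 0 = u₁ →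
        ∀ t, 0 ≤ t → u' t = u t ∧ v' t = v t

/-- stability at rate `f`: `E(u,t) ≤ C f(t)² (‖u₀‖²_{H²} + ‖u₁‖²_{H¹})` for all `t > 0` and all
solutions -/
def StableAt (b : Torus → ℝ) (f : ℝ → ℝ) : Prop :=
  ∃ C : ℝ, 0 < C ∧ ∀ u v : ℝ → L2, IsSolution b u v → ∀ t, 0 < t →
    energy (u t) (v t) ≤ C * f t ^ 2 * (h2Sq (u 0) + h1Sq (v 0))

/-- the decay rate is exactly `1/t` -/
def DecayExactlyOneOverT (b : Torus → ℝ) : Prop :=
  StableAt b (fun t => 1 / t) ∧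
    ∀ f : ℝ → ℝ, Tendsto (fun t => t * f t) atTop (𝓝 0) → ¬ StableAt b f

end

end Pool.Agent.W805.DampedTorus
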