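import Pool.Agent.W805.ER.Mul

/-! transfer from the circle to the torus. -/

open MeasureTheory Complex Filter Topology Set
open scoped ENNReal Real

namespace Pool.Agent.W805.ER

noncomputable section

local instance msTorus : MeasureSpace UnitAddCircle := ⟨AddCircle.haarAddCircle⟩
local instance pmTorus : IsProbabilityMeasure (volume : Measure UnitAddCircle) :=
  inferInstanceAs (IsProbabilityMeasure AddCircle.haarAddCircle)

/-- `β` as a function of the first variable on the torus -/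
def lift (β : UnitAddCircle → ℝ) : T2 → ℝ := fun x => β (x 0)

lemma BM.lift {β : UnitAddCircle → ℝ} {M : ℝ} (h : BM β M) : BM (lift β) M :=
  ⟨h.meas.comp (measurable_pi_apply 0), fun x => h.bd (x 0)⟩

lemma core_nonneg (r : ℝ) (x : UnitAddCircle) : 0 ≤ core r x := by
  unfold core; split_ifs <;> norm_num
lemma lay_nonneg (r : ℝ) (x : UnitAddCircle) : 0 ≤ lay r x := by
  unfold lay; split_ifs <;> norm_num

lemma bm_core (r : ℝ) : BM (core r) 1 := by
  constructor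
  · unfold core
    exact Measurable.ite (measurableSet_lt measurable_norm measurable_const)
      measurable_const measurable_const
  · intro x; unfold core; split_ifs <;> norm_num

lemma bm_lay (r : ℝ) : BM (lay r) 1 := by
  constructor
  · unfold lay
    exact Measurable.ite ((measurableSet_le measurable_const measurable_norm).inter
      (measurableSet_lt measurable_norm measurable_const))
      measurable_const measurable_const
  · intro x; unfold lay; split_ifs <;> norm_num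

/-- core/layer inequality on the torus, for trigonometric polynomials and for all functions in
the domain of the Laplacian -/
def TaskT1T2 : Prop :=
  ∃ K : ℝ, 1 ≤ K ∧ ∀ (r τ : ℝ) (u g : L2), 0 < r → r ≤ 1 / 4 → Mult e2 fsq u g →
    qf volume (lift (core r)) u ≤
      K * (qf volume (lift (lay r)) u +
        r ^ 4 * qf volume (lift (core (2 * r))) (g - ((τ ^ 2 : ℝ) : ℂ) • u))

section J
variable (J : ℤ → L1 →ₗ[ℂ] L2)
  (hJ1 : ∀ m m' u v, inner ℂ (J m u) (J m' v) = if m = m' then inner ℂ u v else 0)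
  (hJ2 : ∀ m u (k : Fin 2 → ℤ), e2.repr (J m u) k = if k 1 = m then e1.repr u (k 0) else 0)
  (hJ3 : ∀ m u (β : UnitAddCircle → ℝ) (M : ℝ), Measurable β → (∀ x, |β x| ≤ M) →
      mulOp volume (fun x : T2 => β (x 0)) (J m u) = J m (mulOp volume β u))
include hJ1 hJ3

lemma qf_sum_J {β : UnitAddCircle → ℝ} {M : ℝ} (h : BM β M) (G : Finset ℤ) (v : ℤ → L1) :
    qf volume (lift β) (∑ m ∈ G, J m (v m)) = ∑ m ∈ G, qf volume β (v m) := by
  have h1 : ((qf volume (lift β) (∑ m ∈ G, J m (v m)) : ℝ) : ℂ) =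
      ((∑ m ∈ G, qf volume β (v m) : ℝ) : ℂ) := by
    rw [← inner_mulOp h.lift, map_sum]
    have h2 : ∀ m, mulOp volume (lift β) (J m (v m)) = J m (mulOp volume β (v m)) := fun m =>
      hJ3 m (v m) β M h.meas h.bd
    simp_rw [h2]
    rw [sum_inner, Complex.ofReal_sum]
    refine Finset.sum_congr rfl fun m hm => ?_
    rw [inner_sum]
    simp_rw [hJ1]
    rw [Finset.sum_ite_eq, if_pos hm, inner_mulOp h]
  exact_mod_cast h1

omit hJ1 hJ3 in
include hJ2 in
lemma sum_J_eq (F : Finset (Fin 2 → ℤ)) (c : (Fin 2 → ℤ) → ℂ) (p : ℤ → ℤ → ℂ)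
    (hp : ∀ k, p (k 0) (k 1) = if k ∈ F then c k else 0) :
    ∑ k ∈ F, c k • e2 k =
      ∑ m ∈ F.image (fun k => k 1), J m (∑ j ∈ F.image (fun k => k 0), p j m • e1 j) := by
  classical
  apply e2.repr.injective
  ext k
  have hL : (e2.repr (∑ k ∈ F, c k • e2 k)) k = if k ∈ F then c k else 0 := by
    rw [map_sum]
    simp only [map_smul, HilbertBasis.repr_self]
    rw [lp.coeFn_sum, Finset.sum_apply]
    simp only [lp.coeFn_smul, Pi.smul_apply, smul_eq_mul]
    have : ∀ x ∈ F, c x * (lp.single 2 x (1 : ℂ) : lp (fun _ : Fin 2 → ℤ => ℂ) 2) k =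
        if x = k then c x else 0 := by
      intro x _
      rw [lp.single_apply]
      by_cases hxk : x = k
      · subst hxk; simp
      · rw [Pi.single_eq_of_ne (Ne.symm hxk)]; simp [hxk]
    rw [Finset.sum_congr rfl this, Finset.sum_ite_eq']
  rw [hL, map_sum, lp.coeFn_sum, Finset.sum_apply]
  simp_rw [hJ2]
  have hR : ∀ m, (e1.repr (∑ j ∈ F.image (fun k => k 0), p j m • e1 j)) (k 0) =
      if k 0 ∈ F.image (fun k => k 0) then p (k 0) m else 0 := by
    intro m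
    rw [map_sum]
    simp only [map_smul, HilbertBasis.repr_self]
    rw [lp.coeFn_sum, Finset.sum_apply]
    simp only [lp.coeFn_smul, Pi.smul_apply, smul_eq_mul]
    have : ∀ x ∈ F.image (fun k => k 0),
        p x m * (lp.single 2 x (1 : ℂ) : lp (fun _ : ℤ => ℂ) 2) (k 0) =
        if x = k 0 then p x m else 0 := by
      intro x _
      rw [lp.single_apply]
      by_cases hxk : x = k 0
      · subst hxk; simp
      · rw [Pi.single_eq_of_ne (Ne.symm hxk)]; simp [hxk]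
    rw [Finset.sum_congr rfl this, Finset.sum_ite_eq']
  simp_rw [hR]
  rw [Finset.sum_ite_eq]
  by_cases hk : k ∈ F
  · have h0 : k 0 ∈ F.image (fun k => k 0) := Finset.mem_image_of_mem _ hk
    have h1 : k 1 ∈ F.image (fun k => k 1) := Finset.mem_image_of_mem _ hk
    rw [if_pos hk, if_pos h1, if_pos h0, hp, if_pos hk]
  · rw [if_neg hk, hp, if_neg hk]; simp

end J

lemma fin2_mk (k : Fin 2 → ℤ) : (![k 0, k 1] : Fin 2 → ℤ) = k := by
  ext i; fin_cases i <;> rfl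

theorem t1t2 (hT : TaskT1C) (hJ : TaskJ) : TaskT1T2 := by
  classical
  obtain ⟨K, hK1, hK⟩ := hT
  obtain ⟨J, hJ1, hJ2, hJ3⟩ := hJ
  refine ⟨K, hK1, ?_⟩
  intro r τ u g hr hr4 hug
  -- finite sums
  have key : ∀ F : Finset (Fin 2 → ℤ),
      qf volume (lift (core r)) (∑ k ∈ F, e2.repr u k • e2 k) ≤
      K * (qf volume (lift (lay r)) (∑ k ∈ F, e2.repr u k • e2 k) +
        r ^ 4 * qf volume (lift (core (2 * r)))
          (∑ k ∈ F, e2.repr g k • e2 k - ((τ ^ 2 : ℝ) : ℂ) • ∑ k ∈ F, e2.repr u k • e2 k)) := by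
    intro F
    have e1' : ∑ k ∈ F, e2.repr g k • e2 k - ((τ ^ 2 : ℝ) : ℂ) • ∑ k ∈ F, e2.repr u k • e2 k =
        ∑ k ∈ F, (((fsq k - τ ^ 2 : ℝ) : ℂ) * e2.repr u k) • e2 k := by
      rw [Finset.smul_sum, ← Finset.sum_sub_distrib]
      refine Finset.sum_congr rfl fun k _ => ?_
      rw [hug k, smul_smul, ← sub_smul]
      push_cast
      ring_nf
    rw [e1']
    set p : ℤ → ℤ → ℂ := fun j m => if ![j, m] ∈ F then e2.repr u ![j, m] else 0 with hp
    have hp1 : ∀ k : Fin 2 → ℤ, p (k 0) (k 1) = if k ∈ F then e2.repr u k else 0 := by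
      intro k; simp only [hp, fin2_mk]
    set q : ℤ → ℤ → ℂ :=
      fun j m => ((((j : ℝ) ^ 2 - (τ ^ 2 - (m : ℝ) ^ 2) : ℝ)) : ℂ) * p j m with hq
    have hp2 : ∀ k : Fin 2 → ℤ, q (k 0) (k 1) =
        if k ∈ F then (((fsq k - τ ^ 2 : ℝ) : ℂ) * e2.repr u k) else 0 := by
      intro k
      simp only [hq]
      rw [hp1]
      split_ifs
      · congr 2; unfold fsq; ring
      · simp
    rw [sum_J_eq J hJ2 F _ p hp1, sum_J_eq J hJ2 F _ q hp2,
      qf_sum_J J hJ1 hJ3 (bm_core r), qf_sum_J J hJ1 hJ3 (bm_lay r),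
      qf_sum_J J hJ1 hJ3 (bm_core (2 * r))]
    rw [Finset.mul_sum, ← Finset.sum_add_distrib, Finset.mul_sum]
    refine Finset.sum_le_sum fun m _ => ?_
    have := hK r (τ ^ 2 - (m : ℝ) ^ 2) (F.image (fun k => k 0)) (fun j => p j m) hr hr4
    exact this
  have hu := e2.hasSum_repr u
  have hg := e2.hasSum_repr g
  have l1 : Tendsto (fun F : Finset (Fin 2 → ℤ) =>
      qf volume (lift (core r)) (∑ k ∈ F, e2.repr u k • e2 k)) atTop
      (𝓝 (qf volume (lift (core r)) u)) :=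
    ((continuous_qf (bm_core r).lift).tendsto u).comp hu
  have l2 : Tendsto (fun F : Finset (Fin 2 → ℤ) =>
      qf volume (lift (lay r)) (∑ k ∈ F, e2.repr u k • e2 k)) atTop
      (𝓝 (qf volume (lift (lay r)) u)) :=
    ((continuous_qf (bm_lay r).lift).tendsto u).comp hu
  have l3 : Tendsto (fun F : Finset (Fin 2 → ℤ) =>
      qf volume (lift (core (2 * r)))
        (∑ k ∈ F, e2.repr g k • e2 k - ((τ ^ 2 : ℝ) : ℂ) • ∑ k ∈ F, e2.repr u k • e2 k)) atTop
      (𝓝 (qf volume (lift (core (2 * r))) (g - ((τ ^ 2 : ℝ) : ℂ) • u))) :=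
    ((continuous_qf (bm_core (2 * r)).lift).tendsto _).comp
      (Tendsto.sub hg (Tendsto.const_smul hu _))
  exact le_of_tendsto_of_tendsto' l1 (((l2.add (l3.const_mul _))).const_mul K) key

/-- quasi-modes on the torus for a damping depending on the first variable and vanishing on a
strip -/
def TaskQM2 : Prop :=
  ∀ (r β₀ : ℝ) (β : UnitAddCircle → ℝ), 0 < r → r ≤ 1 / 8 → 0 < β₀ → Measurable β →
    (∀ x, 0 ≤ β x) → (∀ x, β x ≤ 1) → (∀ x, ‖x‖ < r → β x = 0) →
    (∀ x, r ≤ ‖x‖ → ‖x‖ < 2 * r → β x = β₀) →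
    ∀ ε > 0, ∀ T : ℝ, ∃ τ ≥ T, ∃ u g : L2, u ≠ 0 ∧ Mult e2 fsq u g ∧
      ‖g - ((τ ^ 2 : ℝ) : ℂ) • u + ((τ : ℂ) * I) • mulOp volume (lift β) u‖ ≤ ε * ‖u‖

theorem qm2 (hQ : TaskQM1) (hJ : TaskJ) : TaskQM2 := by
  classical
  obtain ⟨J, hJ1, hJ2, hJ3⟩ := hJ
  have hJn : ∀ m v, ‖J m v‖ = ‖v‖ := by
    intro m v
    have h := hJ1 m m v v
    rw [if_pos rfl, inner_self_eq_norm_sq_to_K, inner_self_eq_norm_sq_to_K] at h
    have h2 : ‖J m v‖ ^ 2 = ‖v‖ ^ 2 := by exact_mod_cast h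
    exact (pow_left_inj₀ (norm_nonneg _) (norm_nonneg _) two_ne_zero).1 h2
  intro r β₀ β hr hr8 hβ₀ hβm hβ0 hβ1 hcore hlay ε hε T
  obtain ⟨Λ, hΛ⟩ := hQ r β₀ β hr hr8 hβ₀ hβm hβ0 hβ1 hcore hlay ε hε
  obtain ⟨m, hm⟩ := exists_nat_gt (max T (max Λ 0))
  have hbd : ∀ x, |β x| ≤ 1 := fun x => by rw [abs_of_nonneg (hβ0 x)]; exact hβ1 x
  set κ2 : ℝ := (1 / (4 * r)) ^ 2 with hκ2
  have hκ0 : 0 ≤ κ2 := by positivity
  set τ : ℝ := Real.sqrt ((m : ℝ) ^ 2 + κ2) with hτ
  have hτ2 : τ ^ 2 = (m : ℝ) ^ 2 + κ2 := Real.sq_sqrt (by positivity)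
  have hτm : (m : ℝ) ≤ τ := Real.le_sqrt_of_sq_le (by linarith)
  have hT1 : T < m := lt_of_le_of_lt (le_max_left _ _) hm
  have hΛ1 : Λ < m := lt_of_le_of_lt ((le_max_left _ _).trans (le_max_right _ _)) hm
  obtain ⟨u, g, hu, hug, hle⟩ := hΛ τ (by linarith)
  refine ⟨τ, by linarith, J m u, J m (g + ((m : ℝ) ^ 2 : ℝ) • u), ?_, ?_, ?_⟩
  · intro h
    apply hu
    rw [← norm_eq_zero, ← hJn m u, h, norm_zero]
  · intro k
    rw [hJ2, hJ2]
    split_ifs with hk
    · have : e1.repr (g + ((m : ℝ) ^ 2 : ℝ) • u) (k 0) =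
          e1.repr g (k 0) + (((m : ℝ) ^ 2 : ℝ) : ℂ) * e1.repr u (k 0) := by
        rw [map_add, lp.coeFn_add, Pi.add_apply]
        congr 1
        have : ((m : ℝ) ^ 2 : ℝ) • u = (((m : ℝ) ^ 2 : ℝ) : ℂ) • u := rfl
        rw [this, map_smul, lp.coeFn_smul, Pi.smul_apply, smul_eq_mul]
      rw [this, hug (k 0)]
      unfold fsq
      rw [hk]
      push_cast
      ring
    · simp
  · have h3 : mulOp volume (lift β) (J m u) = J m (mulOp volume β u) :=
      hJ3 m u β 1 hβm hbd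
    rw [h3, ← map_smul, ← map_smul, ← map_sub, ← map_add, hJn, hJn]
    have h4 : g + ((m : ℝ) ^ 2 : ℝ) • u - ((τ ^ 2 : ℝ) : ℂ) • u = g - κ2 • u := by
      have : ((τ ^ 2 : ℝ) : ℂ) • u = (τ ^ 2 : ℝ) • u := rfl
      rw [this, hτ2, add_smul]
      abel
    rw [h4]
    exact hle

end

end Pool.Agent.W805.ER
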