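import Mathlib

/-!
# The damped wave equation on the flat 2-torus: definitions for MP_d893f8_an

The torus `ℝ²/(2πℤ)²` is modelled by `UnitAddTorus (Fin 2) = (ℝ/ℤ)²`: the class of `s` stands
for the point `x = 2π s`.  The character `exp (i k·x)` is `UnitAddTorus.mFourier k`, so that
`-Δ` (Laplacian in the variable `x`) is the Fourier multiplier `|k|² = k₀² + k₁²`.
The measure is the normalised one (total mass one instead of `(2π)²`); this multiplies energies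
and squared Sobolev norms by the same factor.
-/

open MeasureTheory Filter Topology Set

namespace Pool.Agent.W805.DampedWave

noncomputable section

/-- the flat two-dimensional torus -/
abbrev Torus : Type := UnitAddTorus (Fin 2)

/-- the normalised Haar measure of the torus (total mass one) -/
def mu : Measure Torus := Measure.pi fun _ => AddCircle.haarAddCircle

/-- the Hilbert space of complex valued `L²` functions on the torus -/
def L2 : Type := Lp ℂ 2 mu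

instance normedGroupL2 : NormedAddCommGroup L2 := @Lp.instNormedAddCommGroup Torus ℂ _ 2 mu _ _
instance normedSpaceL2 : NormedSpace ℝ L2 := @Lp.instNormedSpace Torus ℂ _ 2 mu _ ℝ _ _ _

/-- a function representing the class `u` -/
def rep (u : L2) : Torus → ℂ := ⇑(show Lp ℂ 2 mu from u)

/-- Fourier coefficients `û(k) = ∫ u(x) exp (-i k·x) dμ`, `k ∈ ℤ²` -/
def hat (u : L2) (k : Fin 2 → ℤ) : ℂ := ∫ x, UnitAddTorus.mFourier (-k) x * rep u x ∂mu

/-- the frequency `|k| = (k₀² + k₁²)^(1/2)` -/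
def freq (k : Fin 2 → ℤ) : ℝ := Real.sqrt ((k 0 : ℝ) ^ 2 + (k 1 : ℝ) ^ 2)

/-- `g = |∇| u = (-Δ)^(1/2) u` (in particular `u ∈ H¹`) -/
def IsAbsGrad (u g : L2) : Prop := ∀ k, hat g k = (freq k : ℂ) * hat u k

/-- `g = -Δ u` (in particular `u ∈ H²`) -/
def IsNegLaplacian (u g : L2) : Prop := ∀ k, hat g k = ((freq k ^ 2 : ℝ) : ℂ) * hat u k

/-- `g = b u` -/
def IsProduct (b : Torus → ℝ) (u g : L2) : Prop := rep g =ᵐ[mu] fun x => (b x : ℂ) * rep u x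

/-- `u ∈ H¹` -/
def InH1 (u : L2) : Prop := Summable fun k => (1 + freq k ^ 2) * ‖hat u k‖ ^ 2

/-- `u ∈ H²` -/
def InH2 (u : L2) : Prop := Summable fun k => (1 + freq k ^ 2) ^ 2 * ‖hat u k‖ ^ 2

/-- squared `H¹` norm -/
def h1Sq (u : L2) : ℝ := ∑' k, (1 + freq k ^ 2) * ‖hat u k‖ ^ 2

/-- squared `H²` norm -/
def h2Sq (u : L2) : ℝ := ∑' k, (1 + freq k ^ 2) ^ 2 * ‖hat u k‖ ^ 2

/-- `‖∇u‖²` in `L²` -/
def gradSq (u : L2) : ℝ := ∑' k, freq k ^ 2 * ‖hat u k‖ ^ 2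

/-- the energy `½ (‖∇u‖² + ‖v‖²)`, `v = ∂ₜu` -/
def energy (u v : L2) : ℝ := (gradSq u + ‖v‖ ^ 2) / 2

/-- damping functions: bounded, measurable, nonnegative, not almost everywhere zero -/
structure IsDamping (b : Torus → ℝ) : Prop where
  measurable : Measurable b
  bounded : ∃ M, ∀ x, b x ≤ M
  nonneg : ∀ x, 0 ≤ b x
  nontrivial : ¬ (b =ᵐ[mu] fun _ => 0)

/-- the curve `w : [0,∞) → L²` is differentiable (in `L²`), with derivative `w'` -/
def HasDerivOn (w w' : ℝ → L2) : Prop := ∀ t, 0 ≤ t → HasDerivWithinAt w (w' t) (Ici 0) t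

/-- the curve `w : [0,∞) → L²` is continuous (in `L²`) -/
def ContOn (w : ℝ → L2) : Prop := ContinuousOn w (Ici 0)

/-- `u` is the classical solution of `∂ₜ²u - Δu + b ∂ₜu = 0` on `[0,∞) × 𝕋²`, with `v = ∂ₜu`:
`u ∈ C([0,∞);H²) ∩ C¹([0,∞);H¹) ∩ C²([0,∞);L²)`. Here `Gu = |∇|u`, `Gv = |∇|v`, `Lu = -Δu` and
`bv = b v`. -/
def IsSolution (b : Torus → ℝ) (u v : ℝ → L2) : Prop :=
  ∃ Gu Gv Lu bv : ℝ → L2,
    (∀ t, 0 ≤ t → IsAbsGrad (u t) (Gu t)) ∧ (∀ t, 0 ≤ t → IsAbsGrad (v t) (Gv t)) ∧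
    (∀ t, 0 ≤ t → IsNegLaplacian (u t) (Lu t)) ∧ (∀ t, 0 ≤ t → IsProduct b (v t) (bv t)) ∧
    HasDerivOn u v ∧ HasDerivOn Gu Gv ∧ HasDerivOn v (fun t => -(Lu t) - bv t) ∧
    ContOn Gv ∧ ContOn Lu

/-- for all data `(u₀,u₁) ∈ H² × H¹` there is exactly one solution -/
def WellPosed (b : Torus → ℝ) : Prop :=
  ∀ u₀ u₁ : L2, InH2 u₀ → InH1 u₁ →
    ∃ u v : ℝ → L2, IsSolution b u v ∧ u 0 = u₀ ∧ v 0 = u₁ ∧
      ∀ u' v' : ℝ → L2, IsSolution b u' v' → u' 0 = u₀ → v' 0 = u₁ →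
        ∀ t, 0 ≤ t → u' t = u t ∧ v' t = v t

/-- stability at rate `f`: `E(u,t) ≤ C f(t)² (‖u₀‖²_{H²} + ‖u₁‖²_{H¹})` for all `t > 0` and all
solutions -/
def StableAt (b : Torus → ℝ) (f : ℝ → ℝ) : Prop :=
  ∃ C : ℝ, 0 < C ∧ ∀ u v : ℝ → L2, IsSolution b u v → ∀ t, 0 < t →
    energy (u t) (v t) ≤ C * f t ^ 2 * (h2Sq (u 0) + h1Sq (v 0))

/-- the decay rate is exactly `1/t` -/
def DecayExactlyOneOverT (b : Torus → ℝ) : Prop :=
  StableAt b (fun t => 1 / t) ∧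
    ∀ f : ℝ → ℝ, Tendsto (fun t => t * f t) atTop (𝓝 0) → ¬ StableAt b f

end

end Pool.Agent.W805.DampedWave
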